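import Pool.Agent.Helper19.EQ.ParLim

/-!
# Project QD: the parameters `L = m ^ a`, `Y = m ^ b`, `1/2 < a < b < 1`
-/

set_option autoImplicit false

namespace Pool.Agent.Helper19.QD

open Finset MeasureTheory Set Filter Topology Pool.Agent.Helper99.MS
open Pool.Agent.Helper19.EQ

/-- `K * (log-small quantities)` : the exponentially small terms and `q` -/
theorem pl1 (B : ℝ) (K : ℝ) {ε : ℝ} (hε : 0 < ε) : ∀ᶠ m : ℝ in atTop,
    K * (2 * Real.exp (-(m / 32)) + 16 * B * Real.exp (-((m - 4) / 32)) + 2 * (228 * B * CE / √m)) ≤ ε := by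
  have h1 := t_exp (show (0:ℝ) < 32 by norm_num) 0
  have h2 := t_exp (show (0:ℝ) < 32 by norm_num) 4
  have h3 : Tendsto (fun m : ℝ => 228 * B * CE / √m) atTop (𝓝 0) :=
    Tendsto.div_atTop tendsto_const_nhds Real.tendsto_sqrt_atTop
  have h4 := (((h1.const_mul 2).add (h2.const_mul (16 * B))).add (h3.const_mul 2)).const_mul K
  simp only [sub_zero, mul_zero, add_zero] at h4
  exact h4.eventually (ge_mem_nhds hε)

/-- `K * m ^ p ≤ ε` for `p < 0` -/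
theorem pl_neg {p : ℝ} (hp : p < 0) (K : ℝ) {ε : ℝ} (hε : 0 < ε) : ∀ᶠ m : ℝ in atTop, K * m ^ p ≤ ε := by
  have h1 := (t_neg hp).const_mul K
  rw [mul_zero] at h1
  exact h1.eventually (ge_mem_nhds hε)

theorem pl2 {a : ℝ} (ha : 1 / 2 < a) (K : ℝ) {ε : ℝ} (hε : 0 < ε) : ∀ᶠ m : ℝ in atTop,
    K * (√m / m ^ a) ≤ ε := by
  filter_upwards [pl_neg (show 1 / 2 - a < 0 by linarith) K hε, eventually_gt_atTop (0:ℝ)] with m h hm
  rw [Real.sqrt_eq_rpow, ← Real.rpow_sub hm]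
  exact h

theorem pl3 {B : ℝ} (hB : 0 ≤ B) {a : ℝ} (ha : 1 / 2 < a) {K : ℝ} (hK : 0 ≤ K) {ε : ℝ} (hε : 0 < ε) :
    ∀ᶠ m : ℝ in atTop, K * (cC2 B m / m ^ a) ≤ ε := by
  filter_upwards [pl2 ha K hε, cC2_small hB, eventually_ge_atTop (1:ℝ)] with m h h2 hm
  have hm0 : 0 < m := by linarith
  have h3 : cC2 B m ≤ √m := by
    refine h2.trans ?_
    rw [Real.sqrt_eq_rpow]
    exact Real.rpow_le_rpow_of_exponent_le hm (by norm_num)
  have h4 : 0 < m ^ a := Real.rpow_pos_of_pos hm0 _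
  refine le_trans ?_ h
  gcongr

theorem mb_le {b m : ℝ} (hb : b < 1) (hm : 1 ≤ m) : m ^ b ≤ m := by
  calc m ^ b ≤ m ^ (1:ℝ) := Real.rpow_le_rpow_of_exponent_le hm hb.le
    _ = m := Real.rpow_one m

theorem pl5 {b : ℝ} (hb : b < 1) {K : ℝ} (hK : 0 ≤ K) {ε : ℝ} (hε : 0 < ε) : ∀ᶠ m : ℝ in atTop,
    K * (m * ((m ^ b + 3) * Real.exp (-(m / 16)))) ≤ ε := by
  filter_upwards [pl_neg (show (-1:ℝ) < 0 by norm_num) (K * 4) hε, expneg_small (show (0:ℝ) < 16 by norm_num) 3,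
    eventually_ge_atTop (1:ℝ)] with m h he hm
  have hm0 : 0 < m := by linarith
  have h1 := mb_le hb hm
  have h2 : 0 ≤ m ^ b := Real.rpow_nonneg hm0.le _
  have h3 : m * (4 * m * m ^ (-3 : ℝ)) = 4 * m ^ (-1 : ℝ) := by
    have : m ^ (-1 : ℝ) = m ^ 2 * m ^ (-3 : ℝ) := by
      rw [← Real.rpow_natCast, ← Real.rpow_add hm0]; norm_num
    rw [this]; ring
  have h4 : m ^ b + 3 ≤ 4 * m := by linarith
  calc K * (m * ((m ^ b + 3) * Real.exp (-(m / 16)))) ≤ K * (m * (4 * m * m ^ (-3 : ℝ))) := by gcongr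
    _ = K * 4 * m ^ (-1 : ℝ) := by rw [h3]; ring
    _ ≤ ε := h

/-- the far tail -/
theorem pl6 {B : ℝ} (hB : 0 ≤ B) {a b : ℝ} (ha : 0 < a) (hb0 : 0 < b) (hb : b < 1) {K : ℝ} (hK : 0 ≤ K) {ε : ℝ}
    (hε : 0 < ε) : ∀ᶠ m : ℝ in atTop,
    K * (cC2 B m * (m ^ b + 3) * (96 / (m ^ a * √((Real.exp (m ^ b / 2) - 1) / 2)))) ≤ ε := by
  filter_upwards [pl_neg (show (-1:ℝ) < 0 by norm_num) (K * 4 * 96 * 2) hε, cC2_small hB, eventually_ge_atTop (2:ℝ),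
    pw_exp hb0 (show (0:ℝ) < 1/2 by norm_num) 6, eventually_ge_atTop (2:ℝ)] with m h h2 hm2 he _
  have hm : (1:ℝ) ≤ m := by linarith
  have hm0 : (0:ℝ) < m := by linarith
  have hc := cC2_nonneg hB hm0.le
  have h3 : cC2 B m ≤ m := by
    refine h2.trans ?_
    calc m ^ (7/18 - 1/200 : ℝ) ≤ m ^ (1:ℝ) := Real.rpow_le_rpow_of_exponent_le hm (by norm_num)
      _ = m := Real.rpow_one m
  have h4 := mb_le hb hm
  have h6 : 0 ≤ m ^ b := Real.rpow_nonneg hm0.le _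
  have h7 : 1 ≤ m ^ a := Real.one_le_rpow hm ha.le
  have h8 : m ^ (6:ℝ) = m ^ 6 := by
    rw [show (6:ℝ) = ((6:ℕ) : ℝ) by norm_num, Real.rpow_natCast]
  rw [h8] at he
  have h9 : m ^ 3 / 2 ≤ √((Real.exp (m ^ b / 2) - 1) / 2) := by
    apply Real.le_sqrt_of_sq_le
    have h10 : 1 / 2 * m ^ b = m ^ b / 2 := by ring
    rw [h10] at he
    have h11 : (2:ℝ) ≤ m ^ 6 := by
      calc (2:ℝ) ≤ 2 ^ 6 := by norm_num
        _ ≤ m ^ 6 := pow_le_pow_left₀ (by norm_num) hm2 6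
    calc (m ^ 3 / 2) ^ 2 = m ^ 6 / 4 := by ring
      _ ≤ (m ^ 6 - 1) / 2 := by linarith
      _ ≤ _ := by linarith
  have h12 : 96 / (m ^ a * √((Real.exp (m ^ b / 2) - 1) / 2)) ≤ 96 * 2 / m ^ 3 := by
    have h13 : m ^ 3 / 2 ≤ m ^ a * √((Real.exp (m ^ b / 2) - 1) / 2) := by
      have : 0 ≤ √((Real.exp (m ^ b / 2) - 1) / 2) := Real.sqrt_nonneg _
      nlinarith
    calc 96 / (m ^ a * √((Real.exp (m ^ b / 2) - 1) / 2)) ≤ 96 / (m ^ 3 / 2) :=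
          div_le_div_of_nonneg_left (by norm_num) (by positivity) h13
      _ = _ := by field_simp
  have h15 : m ^ b + 3 ≤ 4 * m := by linarith
  calc K * (cC2 B m * (m ^ b + 3) * (96 / (m ^ a * √((Real.exp (m ^ b / 2) - 1) / 2))))
      ≤ K * (m * (4 * m) * (96 * 2 / m ^ 3)) := by gcongr
    _ = K * 4 * 96 * 2 * m ^ (-1 : ℝ) := by
        rw [Real.rpow_neg_one]
        field_simp
    _ ≤ ε := h

/-- the pigeonhole condition -/
theorem pl7 {B : ℝ} (hB : 0 ≤ B) {a b : ℝ} (ha : 0 < a) (hab : a < b) (hb : b < 1) {K : ℝ} (hK : 0 ≤ K) :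
    ∀ᶠ m : ℝ in atTop, ∀ R : ℝ, 0 ≤ R → R ≤ K * √m →
      (1 + 2 * (2 * R * (cC2 B m * (m ^ b + 3) * (16 * m ^ a * CS)))) ^ (2 * (ZL (m ^ a)).card) <
        (⌊Real.exp (m ^ b / 2)⌋₊ : ℝ) + 1 := by
  have hCS := CS_nonneg
  filter_upwards [pig ha hab 4, cC2_small hB, eventually_ge_atTop (1:ℝ),
    eventually_ge_atTop (1 + 2 * (2 * K * (4 * (16 * CS))))] with m h1 h2 hm hm2 R hR0 hR
  have hm0 : (0:ℝ) < m := by linarith
  have hc := cC2_nonneg hB hm0.le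
  have h3 : cC2 B m ≤ √m := by
    refine h2.trans ?_
    rw [Real.sqrt_eq_rpow]
    exact Real.rpow_le_rpow_of_exponent_le hm (by norm_num)
  have h4 := mb_le hb hm
  have h5 := mb_le (hab.trans hb) hm
  have h6 : 0 ≤ m ^ b := Real.rpow_nonneg hm0.le _
  have h7 : 0 ≤ m ^ a := Real.rpow_nonneg hm0.le _
  have hs : √m * √m = m := Real.mul_self_sqrt hm0.le
  have hs0 : 0 ≤ √m := Real.sqrt_nonneg m
  refine h1 _ (by positivity) ?_
  have h8 : 2 * (2 * R * (cC2 B m * (m ^ b + 3) * (16 * m ^ a * CS))) ≤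
      2 * (2 * (K * √m) * (√m * (4 * m) * (16 * m * CS))) := by
    gcongr
    linarith
  have h9 : 2 * (2 * (K * √m) * (√m * (4 * m) * (16 * m * CS))) = 2 * (2 * K * (4 * (16 * CS))) * m ^ 3 := by
    calc 2 * (2 * (K * √m) * (√m * (4 * m) * (16 * m * CS)))
        = 2 * (2 * K * (4 * (16 * CS))) * (√m * √m) * m ^ 2 := by ring
      _ = _ := by rw [hs]; ring
  rw [h9] at h8
  have h10 : (m : ℝ) ^ (4 : ℝ) = m ^ 3 * m := by
    rw [show (4:ℝ) = ((4:ℕ) : ℝ) by norm_num, Real.rpow_natCast]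
    ring
  rw [h10]
  have h11 : 1 ≤ m ^ 3 := one_le_pow₀ hm
  calc 1 + 2 * (2 * R * (cC2 B m * (m ^ b + 3) * (16 * m ^ a * CS)))
      ≤ m ^ 3 + 2 * (2 * K * (4 * (16 * CS))) * m ^ 3 := by linarith
    _ = m ^ 3 * (1 + 2 * (2 * K * (4 * (16 * CS)))) := by ring
    _ ≤ m ^ 3 * m := mul_le_mul_of_nonneg_left hm2 (by linarith)

/-- the far point is far -/
theorem pl8 {b : ℝ} (hb0 : 0 < b) : ∀ᶠ m : ℝ in atTop, 100 + 2 * √m ≤ (Real.exp (m ^ b / 2) - 1) / 2 := by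
  filter_upwards [pw_exp hb0 (show (0:ℝ) < 1/2 by norm_num) 2, eventually_ge_atTop (300:ℝ)] with m he hm
  have hm0 : (0:ℝ) < m := by linarith
  have h8 : m ^ (2:ℝ) = m ^ 2 := by
    rw [show (2:ℝ) = ((2:ℕ) : ℝ) by norm_num, Real.rpow_natCast]
  have h10 : 1 / 2 * m ^ b = m ^ b / 2 := by ring
  rw [h8, h10] at he
  have hs : √m ≤ m := by
    rw [Real.sqrt_le_left hm0.le]
    nlinarith
  nlinarith

/-- the gauge with the exponent `β` -/
theorem pl9 {w : ℝ → ℝ} (hw : MonotoneOn w (Ico 0 1)) {b β : ℝ} (hb0 : 0 < b) (hβ0 : 0 < β) (hβ : β * b < 1 / 2)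
    {C : ℝ} (hC : 0 < C) : ∀ᶠ m : ℝ in atTop, 0 ≤ 1 - C * (1 / √m) ∧ 1 - C * (1 / √m) < 1 ∧
      ∀ N : ℕ, (N : ℝ) ≤ Real.exp (2 * Real.exp (m ^ b)) → 1 ≤ Real.log (Real.log N) →
        w (1 - Real.log (Real.log N) ^ (-β)) ≤ w (1 - C * (1 / √m)) := by
  filter_upwards [pw_small (show b * β < 1 / 2 by linarith) (2 ^ β * C), pw_ge hb0 1, eventually_ge_atTop (1:ℝ),
    eventually_ge_atTop (C ^ 2)] with m h1 h2 hm hmC
  have hm0 : 0 < m := by linarith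
  have hs0 : 0 < √m := Real.sqrt_pos.2 hm0
  have hsC : C ≤ √m := Real.le_sqrt_of_sq_le hmC
  have hq : C * (1 / √m) ≤ 1 := by
    rw [mul_one_div, div_le_one hs0]; exact hsC
  have hq0 : 0 < C * (1 / √m) := by positivity
  refine ⟨by linarith, by linarith, ?_⟩
  intro N hN hl
  have hmb : 0 < m ^ b := by linarith
  have h3 := llog_le_nat hmb.le N hN
  have hl0 : 0 < Real.log (Real.log N) := by linarith
  have h4 : Real.log (Real.log N) ≤ 2 * m ^ b := by linarith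
  have h5 : Real.log (Real.log N) ^ β ≤ √m / C := by
    rw [le_div_iff₀ hC]
    calc Real.log (Real.log N) ^ β * C ≤ (2 * m ^ b) ^ β * C := by
          apply mul_le_mul_of_nonneg_right _ hC.le
          exact Real.rpow_le_rpow hl0.le h4 hβ0.le
      _ = 2 ^ β * C * m ^ (b * β) := by
          rw [Real.mul_rpow (by norm_num) hmb.le, ← Real.rpow_mul hm0.le]
          ring
      _ ≤ m ^ (1 / 2 : ℝ) := h1
      _ = √m := (Real.sqrt_eq_rpow m).symm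
  have hp : 0 < Real.log (Real.log N) ^ β := Real.rpow_pos_of_pos hl0 _
  have h6 : C * (1 / √m) ≤ Real.log (Real.log N) ^ (-β) := by
    rw [Real.rpow_neg hl0.le, ← one_div, mul_one_div, div_le_div_iff₀ hs0 hp]
    rw [le_div_iff₀ hC] at h5
    linarith
  have h7 : Real.log (Real.log N) ^ (-β) ≤ 1 := by
    rw [Real.rpow_neg hl0.le]
    apply inv_le_one_of_one_le₀
    exact Real.one_le_rpow hl hβ0.le
  apply hw ⟨by linarith, by linarith⟩ ⟨by linarith, by linarith⟩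
  linarith

end Pool.Agent.Helper19.QD
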