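import Pool.Agent.Helper63.EQ.Defs

/-! Project QD (edge weights, quantitative, every exponent below one): definitions. -/

set_option autoImplicit false

namespace Pool.Agent.Helper19.QD

open MeasureTheory Set Filter Topology
open Pool.Agent.Helper95.EW (Ac Dl Nr)
open Pool.Agent.Helper71.MR (gt)

/-- the difference kernel of the near levels -/
noncomputable def ps (w : ℝ → ℝ) (δ y : ℝ) : ℝ :=
  ∫ lam in Nr w, (gt δ y - √(Ac w lam) * gt δ (y - Real.log (Ac w lam)))

/-- the integral of the weight next to the edge -/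
noncomputable def Wd (w : ℝ → ℝ) (δ : ℝ) : ℝ := ∫ s in (0:ℝ)..δ, w (1 - s)

/-- the average of a real function with the difference kernel -/
noncomputable def Dr (w : ℝ → ℝ) (δ : ℝ) (f : ℝ → ℝ) (V : ℝ) : ℝ := ∫ y : ℝ, ps w δ y * f (V + y)

end Pool.Agent.Helper19.QD
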