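import Pool.Agent.Helper95.EQ.K
import Pool.Agent.Helper19.EQ.Defs

/-! # Project QD, block P: the difference kernel of the near levels -/

set_option autoImplicit false

namespace Pool.Agent.Helper19.QD

open MeasureTheory Set Filter Topology
open Pool.Agent.Helper95.EW
open Pool.Agent.Helper95.EQ (log_le log_nn log_gap Ac_pos_of gt_le_abs)
open Pool.Agent.Helper71.MR (gt gt_nonneg gt_zero gt_integrable gt_cont gt_le_one gt_lip)
open Pool.Agent.Helper63.EW (gt_le gt_int_ge)
open Pool.Agent.Helper63.EQ (nu Adm)

variable {w : ℝ → ℝ} {Cw : ℝ}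

/-- the kernel of one level -/
noncomputable def pk (w : ℝ → ℝ) (δ lam y : ℝ) : ℝ :=
  gt δ y - √(Ac w lam) * gt δ (y - Real.log (Ac w lam))

theorem ps_def (w : ℝ → ℝ) (δ y : ℝ) : ps w δ y = ∫ lam in Nr w, pk w δ lam y := rfl

theorem pk_meas (h : Adm w Cw) (δ : ℝ) : Measurable (Function.uncurry (pk w δ)) := by
  have h1 : Measurable fun p : ℝ × ℝ => Ac w p.1 := (Ac_meas h.hub).comp measurable_fst
  have h2 := (gt_cont δ).measurable
  have h3 : Measurable fun p : ℝ × ℝ => gt δ p.2 := h2.comp measurable_snd
  have h4 : Measurable fun p : ℝ × ℝ => gt δ (p.2 - Real.log (Ac w p.1)) :=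
    h2.comp (measurable_snd.sub (Real.measurable_log.comp h1))
  have h5 : Measurable fun p : ℝ × ℝ => √(Ac w p.1) := h1.sqrt
  exact h3.sub (h5.mul h4)

theorem pk_supp (h : Adm w Cw) {δ y lam : ℝ} (hl : lam ∈ Nr w) (hy : y ≤ -(1 / 2) ∨ δ ≤ y) :
    pk w δ lam y = 0 := by
  have h1 := log_le hl
  have h2 := log_nn h hl
  unfold pk
  rcases hy with hy | hy
  · rw [gt_zero (Or.inl (by linarith)), gt_zero (Or.inl (by linarith))]
    ring
  · rw [gt_zero (Or.inr hy), gt_zero (Or.inr (by linarith))]
    ring

theorem ps_meas (h : Adm w Cw) (δ : ℝ) : Measurable (ps w δ) := by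
  have h1 : StronglyMeasurable (Function.uncurry fun y lam => pk w δ lam y) := by
    have := (pk_meas h δ).comp measurable_swap
    exact this.stronglyMeasurable
  have h2 := h1.integral_prod_right (ν := volume.restrict (Nr w))
  exact h2.measurable

theorem ps_supp (h : Adm w Cw) {δ y : ℝ} (_hδ : 0 ≤ δ) (hy : y ≤ -(1 / 2) ∨ δ ≤ y) : ps w δ y = 0 := by
  rw [ps_def]
  have e : ∀ lam ∈ Nr w, pk w δ lam y = 0 := fun lam hl => pk_supp h hl hy
  rw [setIntegral_congr_fun (Nr_meas h.hub) e]
  simp

theorem gt_I_le {δ : ℝ} (hδ : 0 ≤ δ) : ∫ u : ℝ, gt δ u ≤ δ ^ 2 / 2 := by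
  have h1 : ∫ u : ℝ, gt δ u ≤ ∫ u : ℝ, (Icc 0 δ).indicator (fun _ => δ / 2) u := by
    refine integral_mono (gt_integrable δ) ?_ fun u => ?_
    · rw [integrable_indicator_iff measurableSet_Icc]
      exact integrableOn_const (by rw [Real.volume_Icc]; exact ENNReal.ofReal_ne_top)
    · by_cases hu : u ∈ Icc 0 δ
      · simp only [indicator_of_mem hu]
        exact gt_le δ u hδ
      · simp only [indicator_of_notMem hu]
        apply le_of_eq
        apply gt_zero
        by_contra hc
        push Not at hc
        exact hu ⟨hc.1.le, hc.2.le⟩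
  refine h1.trans (le_of_eq ?_)
  rw [integral_indicator measurableSet_Icc, setIntegral_const, smul_eq_mul, Real.volume_real_Icc, sub_zero,
    max_eq_left hδ]
  ring

theorem gt_shift_int (δ r : ℝ) : Integrable fun y : ℝ => |gt δ y - gt δ (y + r)| :=
  ((gt_integrable δ).sub ((gt_integrable δ).comp_add_right r)).abs

/-- the shift difference of the tent -/
theorem gt_shift {δ r : ℝ} (hδ : 0 < δ) (hr : 0 ≤ r) :
    ∫ y : ℝ, |gt δ y - gt δ (y + r)| ≤ 2 * δ * min r δ := by
  rcases le_or_gt r δ with h | h
  · rw [min_eq_left h]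
    have h1 : ∫ y : ℝ, |gt δ y - gt δ (y + r)| ≤ ∫ y : ℝ, (Icc (-r) δ).indicator (fun _ => r) y := by
      refine integral_mono (gt_shift_int δ r) ?_ fun y => ?_
      · rw [integrable_indicator_iff measurableSet_Icc]
        exact integrableOn_const (by rw [Real.volume_Icc]; exact ENNReal.ofReal_ne_top)
      · by_cases hy : y ∈ Icc (-r) δ
        · simp only [indicator_of_mem hy]
          refine (gt_lip δ y (y + r)).trans ?_
          rw [show y - (y + r) = -r by ring, abs_neg, abs_of_nonneg hr]
        · simp only [indicator_of_notMem hy]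
          have hy' : y < -r ∨ δ < y := by
            by_contra hc
            push Not at hc
            exact hy ⟨hc.1, hc.2⟩
          have e1 : gt δ y = 0 := by
            rcases hy' with h' | h'
            · exact gt_zero (Or.inl (by linarith))
            · exact gt_zero (Or.inr h'.le)
          have e2 : gt δ (y + r) = 0 := by
            rcases hy' with h' | h'
            · exact gt_zero (Or.inl (by linarith))
            · exact gt_zero (Or.inr (by linarith))
          rw [e1, e2]
          simp
    refine h1.trans ?_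
    rw [integral_indicator measurableSet_Icc, setIntegral_const, smul_eq_mul, Real.volume_real_Icc,
      max_eq_left (by linarith)]
    nlinarith
  · rw [min_eq_right h.le]
    have h1 : ∫ y : ℝ, |gt δ y - gt δ (y + r)| ≤ ∫ y : ℝ, (gt δ y + gt δ (y + r)) := by
      refine integral_mono (gt_shift_int δ r) ((gt_integrable δ).add ((gt_integrable δ).comp_add_right r))
        fun y => ?_
      refine (abs_sub _ _).trans ?_
      rw [abs_of_nonneg (gt_nonneg _ _), abs_of_nonneg (gt_nonneg _ _)]
    rw [integral_add (gt_integrable δ) ((gt_integrable δ).comp_add_right r),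
      integral_add_right_eq_self (fun u => gt δ u) r] at h1
    have h2 := gt_I_le hδ.le
    nlinarith

theorem pk_int1 (w : ℝ → ℝ) (δ lam : ℝ) : Integrable (pk w δ lam) := by
  unfold pk
  exact (gt_integrable δ).sub (((gt_integrable δ).comp_sub_right _).const_mul _)

theorem pk_l1 (h : Adm w Cw) {δ lam : ℝ} (hδ0 : 0 < δ) (hδ : δ ≤ 1) (hl : lam ∈ Nr w) :
    ∫ y : ℝ, |pk w δ lam y| ≤ 4 * δ * min (1 - Ac w lam) δ := by
  have ha1 := Ac_lt_one h.hub lam
  have ha0 := Ac_pos_of hl
  have hr0 := log_nn h hl
  have hr1 := log_gap hl ha1.le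
  set a := Ac w lam with ha
  set r := -Real.log a with hr
  have hs0 := Real.sqrt_nonneg a
  have hs1 : √a ≤ 1 := Real.sqrt_le_one.mpr ha1.le
  have hs2 : a ≤ √a := by
    have h1 := Real.sq_sqrt ha0.le
    nlinarith
  have h1 : ∫ y : ℝ, |pk w δ lam y| ≤ ∫ y : ℝ, ((1 - a) * gt δ y + |gt δ y - gt δ (y + r)|) := by
    refine integral_mono (pk_int1 w δ lam).abs (((gt_integrable δ).const_mul _).add (gt_shift_int δ r)) fun y => ?_
    have e : pk w δ lam y = (1 - √a) * gt δ y + √a * (gt δ y - gt δ (y + r)) := by
      unfold pk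
      rw [← ha, show y - Real.log a = y + r by rw [hr]; ring]
      ring
    have hg := gt_nonneg δ y
    have hab := abs_nonneg (gt δ y - gt δ (y + r))
    calc |pk w δ lam y| = |(1 - √a) * gt δ y + √a * (gt δ y - gt δ (y + r))| := by rw [e]
      _ ≤ |(1 - √a) * gt δ y| + |√a * (gt δ y - gt δ (y + r))| := abs_add_le _ _
      _ = (1 - √a) * gt δ y + √a * |gt δ y - gt δ (y + r)| := by
          rw [abs_mul, abs_mul, abs_of_nonneg (by linarith : 0 ≤ 1 - √a), abs_of_nonneg hg, abs_of_nonneg hs0]
      _ ≤ _ := by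
          have h2 : (1 - √a) * gt δ y ≤ (1 - a) * gt δ y := mul_le_mul_of_nonneg_right (by linarith) hg
          have h3 : √a * |gt δ y - gt δ (y + r)| ≤ 1 * |gt δ y - gt δ (y + r)| := mul_le_mul_of_nonneg_right hs1 hab
          linarith
  rw [integral_add ((gt_integrable δ).const_mul _) (gt_shift_int δ r), integral_const_mul] at h1
  have h2 := gt_shift hδ0 hr0
  have h3 := gt_I_le hδ0.le
  have h4 : (1 - a) * ∫ u : ℝ, gt δ u ≤ (1 - a) * (δ ^ 2 / 2) := mul_le_mul_of_nonneg_left h3 (by linarith)
  have h5 : min r δ ≤ 5 / 3 * min (1 - a) δ := by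
    rcases le_total (1 - a) δ with h' | h'
    · rw [min_eq_left h']
      exact (min_le_left _ _).trans hr1
    · rw [min_eq_right h']
      have := min_le_right r δ
      linarith
  have h6 : δ * (1 - a) ≤ min (1 - a) δ := by
    rw [le_min_iff]
    constructor
    · nlinarith
    · nlinarith
  have h7 : (1 - a) * (δ ^ 2 / 2) = δ / 2 * (δ * (1 - a)) := by ring
  have h8 : δ / 2 * (δ * (1 - a)) ≤ δ / 2 * min (1 - a) δ := mul_le_mul_of_nonneg_left h6 (by linarith)
  have h9 : 2 * δ * min r δ ≤ 2 * δ * (5 / 3 * min (1 - a) δ) := mul_le_mul_of_nonneg_left h5 (by linarith)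
  have h10 : 0 ≤ δ * min (1 - a) δ := mul_nonneg hδ0.le (le_min (by linarith) hδ0.le)
  linarith

theorem min_meas (h : Adm w Cw) (δ : ℝ) : Measurable fun lam => min (1 - Ac w lam) δ :=
  (measurable_const.sub (Ac_meas h.hub)).min measurable_const

theorem min_int (h : Adm w Cw) {δ : ℝ} (hδ : 0 ≤ δ) : IntegrableOn (fun lam => min (1 - Ac w lam) δ) (Nr w) := by
  refine (gap_int h.h0 h.hw h.hub h.hC).mono' (min_meas h δ).aestronglyMeasurable ?_
  filter_upwards with lam
  have := Ac_lt_one h.hub lam
  rw [Real.norm_eq_abs, abs_of_nonneg (le_min (by linarith) hδ)]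
  exact min_le_left _ _

theorem pk_int (h : Adm w Cw) {δ : ℝ} (hδ0 : 0 < δ) (hδ : δ ≤ 1) :
    Integrable (Function.uncurry (pk w δ)) ((volume.restrict (Nr w)).prod volume) := by
  rw [integrable_prod_iff (pk_meas h δ).aestronglyMeasurable]
  constructor
  · filter_upwards with lam
    exact pk_int1 w δ lam
  · refine ((min_int h hδ0.le).const_mul (4 * δ)).mono' ?_ ?_
    · exact ((pk_meas h δ).norm.aestronglyMeasurable (μ := (volume.restrict (Nr w)).prod volume)).integral_prod_right'
    · filter_upwards [ae_restrict_mem (Nr_meas h.hub)] with lam hl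
      rw [Real.norm_eq_abs, abs_of_nonneg (integral_nonneg fun _ => norm_nonneg _)]
      exact pk_l1 h hδ0 hδ hl

theorem wd_int (h : Adm w Cw) {δ : ℝ} (hδ0 : 0 < δ) (hδ : δ ≤ 1) : IntegrableOn (fun s => w (1 - s)) (Ioo 0 δ) := by
  have h1 := w_int h.h0 h.hw h.hC
  have h2 : IntervalIntegrable w volume 0 1 := by
    rw [intervalIntegrable_iff_integrableOn_Ioo_of_le zero_le_one]
    exact h1.mono_set fun x hx => ⟨hx.1.le, hx.2⟩
  have h3 := (h2.comp_sub_left 1).symm
  simp only [sub_zero, sub_self] at h3
  rw [intervalIntegrable_iff_integrableOn_Ioo_of_le zero_le_one] at h3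
  exact h3.mono_set fun x hx => ⟨hx.1, hx.2.trans_le hδ⟩

theorem Wd_eq {δ : ℝ} (hδ0 : 0 < δ) : Wd w δ = ∫ s in Ioo 0 δ, w (1 - s) := by
  unfold Wd
  rw [intervalIntegral.integral_of_le hδ0.le, integral_Ioc_eq_integral_Ioo]

/-- the layer cake next to the edge -/
theorem min_le_Wd (h : Adm w Cw) {δ : ℝ} (hδ0 : 0 < δ) (hδ : δ ≤ 1) :
    ∫ lam in Nr w, min (1 - Ac w lam) δ ≤ Wd w δ := by
  set χ : ℝ → ℝ → ℝ := fun lam s => (Ioo 0 δ).indicator (fun s => if Ac w lam < 1 - s then (1:ℝ) else 0) s with hχ
  have hset : MeasurableSet {p : ℝ × ℝ | Ac w p.1 < 1 - p.2} :=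
    measurableSet_lt ((Ac_meas h.hub).comp measurable_fst) (measurable_const.sub measurable_snd)
  have hmeas : Measurable (Function.uncurry χ) := by
    have h1 : Measurable fun p : ℝ × ℝ => if Ac w p.1 < 1 - p.2 then (1:ℝ) else 0 :=
      Measurable.ite hset measurable_const measurable_const
    have h2 : Function.uncurry χ = (Prod.snd ⁻¹' (Ioo 0 δ)).indicator
        (fun p : ℝ × ℝ => if Ac w p.1 < 1 - p.2 then (1:ℝ) else 0) := by
      funext p
      rcases p with ⟨lam, s⟩
      simp only [Function.uncurry, hχ, Set.indicator, mem_preimage]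
    rw [h2]
    exact h1.indicator (measurable_snd measurableSet_Ioo)
  have hχ0 : ∀ lam s, 0 ≤ χ lam s := by
    intro lam s
    simp only [hχ]
    apply indicator_nonneg
    intro x _
    split_ifs <;> norm_num
  have hleft : ∀ lam, ∫ s, χ lam s = min (1 - Ac w lam) δ := by
    intro lam
    have ha1 := Ac_lt_one h.hub lam
    have e : χ lam = (Ioo 0 (min (1 - Ac w lam) δ)).indicator fun _ => (1:ℝ) := by
      funext s
      simp only [hχ, Set.indicator, mem_Ioo, lt_min_iff]
      by_cases h1 : 0 < s ∧ s < δ
      · rw [if_pos h1]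
        by_cases h2 : Ac w lam < 1 - s
        · rw [if_pos h2, if_pos ⟨h1.1, by linarith, h1.2⟩]
        · rw [if_neg h2, if_neg (fun h3 => h2 (by linarith [h3.2.1]))]
      · rw [if_neg h1, if_neg (fun h3 => h1 ⟨h3.1, h3.2.2⟩)]
    rw [e, integral_indicator measurableSet_Ioo, setIntegral_const, smul_eq_mul, Real.volume_real_Ioo, sub_zero,
      max_eq_left (le_min (by linarith) hδ0.le), mul_one]
  have hint1 : ∀ lam, Integrable (χ lam) := by
    intro lam
    have h1 : Integrable ((Ioo 0 δ).indicator fun _ => (1:ℝ)) := by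
      rw [integrable_indicator_iff measurableSet_Ioo]
      exact integrableOn_const (by rw [Real.volume_Ioo]; exact ENNReal.ofReal_ne_top)
    refine h1.mono' (hmeas.comp (measurable_const.prodMk measurable_id)).aestronglyMeasurable ?_
    filter_upwards with s
    rw [Real.norm_eq_abs, abs_of_nonneg (hχ0 lam s)]
    simp only [hχ]
    apply indicator_le_indicator
    split_ifs <;> norm_num
  have hint : Integrable (Function.uncurry χ) ((volume.restrict (Nr w)).prod volume) := by
    rw [integrable_prod_iff hmeas.aestronglyMeasurable]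
    constructor
    · filter_upwards with lam
      exact hint1 lam
    · refine (min_int h hδ0.le).congr ?_
      filter_upwards with lam
      rw [← hleft lam]
      apply integral_congr_ae
      filter_upwards with s
      simp only [Function.uncurry]
      rw [Real.norm_eq_abs, abs_of_nonneg (hχ0 lam s)]
  have hright : ∀ s, ∫ lam in Nr w, χ lam s ≤ (Ioo 0 δ).indicator (fun s => w (1 - s)) s := by
    intro s
    by_cases hs : s ∈ Ioo 0 δ
    · have hE : MeasurableSet {lam : ℝ | Ac w lam < 1 - s} := measurableSet_lt (Ac_meas h.hub) measurable_const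
      have e : (fun lam => χ lam s) = {lam : ℝ | Ac w lam < 1 - s}.indicator (fun _ => (1:ℝ)) := by
        funext lam
        simp only [hχ, indicator_of_mem hs]
        simp only [Set.indicator, mem_setOf_eq]
      rw [e, integral_indicator hE, setIntegral_const, smul_eq_mul, mul_one, measureReal_restrict_apply hE,
        indicator_of_mem hs]
      have h1 := real_le h.hw h.h0 h.hub (t := 1 - s) (by linarith [hs.2]) (by linarith [hs.1])
      refine le_trans (measureReal_mono ?_ (fin_vol h.hw h.hub (by linarith [hs.1] : 1 - s < 1))) h1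
      intro lam hlam
      exact ⟨hlam.2.1, hlam.1⟩
    · have e : (fun lam => χ lam s) = fun _ => 0 := by
        funext lam
        simp only [hχ, indicator_of_notMem hs]
      rw [e, indicator_of_notMem hs]
      simp
  calc ∫ lam in Nr w, min (1 - Ac w lam) δ = ∫ lam in Nr w, ∫ s, χ lam s := by
        apply integral_congr_ae
        filter_upwards with lam
        exact (hleft lam).symm
    _ = ∫ s, ∫ lam in Nr w, χ lam s := integral_integral_swap hint
    _ ≤ ∫ s, (Ioo 0 δ).indicator (fun s => w (1 - s)) s := by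
        refine integral_mono hint.integral_prod_right ?_ hright
        rw [integrable_indicator_iff measurableSet_Ioo]
        exact wd_int h hδ0 hδ
    _ = Wd w δ := by rw [integral_indicator measurableSet_Ioo, Wd_eq hδ0]

theorem ps_int (h : Adm w Cw) {δ : ℝ} (hδ0 : 0 < δ) (hδ : δ ≤ 1 / 4) :
    Integrable (ps w δ) ∧ ∫ y : ℝ, |ps w δ y| ≤ 10 * δ * Wd w δ := by
  have hδ1 : δ ≤ 1 := by linarith
  have hi := pk_int h hδ0 hδ1
  refine ⟨hi.integral_prod_right, ?_⟩
  have hia : Integrable (Function.uncurry fun lam y => |pk w δ lam y|) ((volume.restrict (Nr w)).prod volume) := hi.abs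
  have hW0 : 0 ≤ Wd w δ := by
    rw [Wd_eq hδ0]
    apply setIntegral_nonneg measurableSet_Ioo
    intro s hs
    exact h.h0 _ ⟨by linarith [hs.2], by linarith [hs.1]⟩
  calc ∫ y : ℝ, |ps w δ y| ≤ ∫ y : ℝ, ∫ lam in Nr w, |pk w δ lam y| := by
        refine integral_mono hi.integral_prod_right.abs hia.integral_prod_right fun y => ?_
        exact abs_integral_le_integral_abs
    _ = ∫ lam in Nr w, ∫ y : ℝ, |pk w δ lam y| := (integral_integral_swap hia).symm
    _ ≤ ∫ lam in Nr w, 4 * δ * min (1 - Ac w lam) δ := by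
        refine setIntegral_mono_on hia.integral_prod_left ((min_int h hδ0.le).const_mul _) (Nr_meas h.hub)
          fun lam hl => pk_l1 h hδ0 hδ1 hl
    _ = 4 * δ * ∫ lam in Nr w, min (1 - Ac w lam) δ := integral_const_mul _ _
    _ ≤ 4 * δ * Wd w δ := mul_le_mul_of_nonneg_left (min_le_Wd h hδ0 hδ1) (by linarith)
    _ ≤ 10 * δ * Wd w δ := by nlinarith [mul_nonneg hδ0.le hW0]

/-- Fubini -/
theorem Dr_eq (h : Adm w Cw) {δ : ℝ} (hδ0 : 0 ≤ δ) (hδ : δ ≤ 1) {f : ℝ → ℝ} (hf : Measurable f) {V M : ℝ}
    (hM : ∀ y ∈ Icc (V - 1) (V + 1), |f y| ≤ M) :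
    Dr w δ f V = ∫ lam in Nr w, Dl (fun y => ∫ u : ℝ, f (y + u) * gt δ u) w V lam := by
  rcases hδ0.eq_or_lt with h0 | hδ0
  · -- degenerate
    have hg : ∀ u, gt δ u = 0 := by
      intro u
      rcases le_total u 0 with hu | hu
      · exact gt_zero (Or.inl hu)
      · exact gt_zero (Or.inr (by rw [← h0]; exact hu))
    have e1 : ∀ y, ps w δ y = 0 := by
      intro y
      rw [ps_def]
      have : (fun lam => pk w δ lam y) = fun _ => 0 := by
        funext lam
        unfold pk
        rw [hg, hg]
        ring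
      rw [this]
      simp
    unfold Dr Dl
    simp only [e1, hg, mul_zero, zero_mul, integral_zero, sub_zero]
  have hmk := pk_meas h δ
  have hmf : Measurable fun y => f (V + y) := by fun_prop
  have hM0 : 0 ≤ M := (abs_nonneg _).trans (hM V ⟨by linarith, by linarith⟩)
  have hb : ∀ lam ∈ Nr w, ∀ y, |pk w δ lam y * f (V + y)| ≤ M * |pk w δ lam y| := by
    intro lam hl y
    rw [abs_mul]
    by_cases hy : y ≤ -(1 / 2) ∨ δ ≤ y
    · rw [pk_supp h hl hy]
      simp
    · push Not at hy
      have := hM (V + y) ⟨by linarith [hy.1], by linarith [hy.2]⟩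
      nlinarith [abs_nonneg (pk w δ lam y)]
  have hi1 : ∀ lam ∈ Nr w, Integrable fun y => pk w δ lam y * f (V + y) := by
    intro lam hl
    refine ((pk_int1 w δ lam).abs.const_mul M).mono' ?_ ?_
    · have : Measurable (pk w δ lam) := hmk.comp (measurable_const.prodMk measurable_id)
      exact (this.mul hmf).aestronglyMeasurable
    · filter_upwards with y
      exact hb lam hl y
  have hi := pk_int h hδ0 hδ
  have hmu : Measurable (Function.uncurry fun lam y : ℝ => pk w δ lam y * f (V + y)) :=
    hmk.mul (hmf.comp measurable_snd)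
  have hint : Integrable (Function.uncurry fun lam y : ℝ => pk w δ lam y * f (V + y))
      ((volume.restrict (Nr w)).prod volume) := by
    rw [integrable_prod_iff hmu.aestronglyMeasurable]
    constructor
    · filter_upwards [ae_restrict_mem (Nr_meas h.hub)] with lam hl
      exact hi1 lam hl
    · have hI := (hi.abs.integral_prod_left).const_mul M
      refine hI.mono' ?_ ?_
      · exact (hmu.norm.aestronglyMeasurable (μ := (volume.restrict (Nr w)).prod volume)).integral_prod_right'
      · filter_upwards [ae_restrict_mem (Nr_meas h.hub)] with lam hl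
        rw [Real.norm_eq_abs, abs_of_nonneg (integral_nonneg fun _ => norm_nonneg _)]
        have h1 : ∫ y, ‖Function.uncurry (fun lam y : ℝ => pk w δ lam y * f (V + y)) (lam, y)‖ ≤
            ∫ y, M * |pk w δ lam y| :=
          integral_mono (hi1 lam hl).norm ((pk_int1 w δ lam).abs.const_mul M) fun y => hb lam hl y
        refine h1.trans (le_of_eq ?_)
        rw [integral_const_mul]
        rfl
  have hgf : ∀ r : ℝ, 0 ≤ r → r ≤ 1 / 2 → Integrable fun u => f (V - r + u) * gt δ u := by
    intro r hr0 hr1
    refine ((gt_integrable δ).const_mul M).mono' ?_ ?_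
    · have := (gt_cont δ).measurable
      exact Measurable.aestronglyMeasurable (by fun_prop)
    · filter_upwards with u
      rw [Real.norm_eq_abs, abs_mul, abs_of_nonneg (gt_nonneg _ _)]
      by_cases hu : u ∈ Ioo 0 δ
      · have := hM (V - r + u) ⟨by linarith [hu.1], by linarith [hu.2]⟩
        nlinarith [gt_nonneg δ u]
      · have : gt δ u = 0 := by
          apply gt_zero
          by_contra hc
          push Not at hc
          exact hu ⟨hc.1, hc.2⟩
        rw [this]
        simp
  calc Dr w δ f V = ∫ y : ℝ, ∫ lam in Nr w, pk w δ lam y * f (V + y) := by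
        unfold Dr
        apply integral_congr_ae
        filter_upwards with y
        rw [ps_def, integral_mul_const]
    _ = ∫ lam in Nr w, ∫ y : ℝ, pk w δ lam y * f (V + y) := (integral_integral_swap hint).symm
    _ = _ := by
        refine setIntegral_congr_fun (Nr_meas h.hub) fun lam hl => ?_
        have hr0 := log_nn h hl
        have hr1 := log_le hl
        show ∫ y : ℝ, pk w δ lam y * f (V + y) = Dl (fun y => ∫ u : ℝ, f (y + u) * gt δ u) w V lam
        unfold Dl
        set a := Ac w lam with ha
        set r := -Real.log a with hr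
        have e1 : (fun y => pk w δ lam y * f (V + y)) =
            fun y => f (V + y) * gt δ y - √a * (f (V - r + (y + r)) * gt δ (y + r)) := by
          funext y
          unfold pk
          rw [← ha, show y - Real.log a = y + r by rw [hr]; ring, show V - r + (y + r) = V + y by ring]
          ring
        have i1 : Integrable fun y => f (V + y) * gt δ y := by
          have := hgf 0 le_rfl (by norm_num)
          rwa [sub_zero] at this
        have i2 : Integrable fun y => √a * (f (V - r + (y + r)) * gt δ (y + r)) :=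
          ((hgf r hr0 hr1).comp_add_right r).const_mul _
        rw [e1, integral_sub i1 i2, integral_const_mul,
          integral_add_right_eq_self (fun u => f (V - r + u) * gt δ u) r]
        have e2 : V + Real.log a = V - r := by rw [hr]; ring
        rw [e2]

end Pool.Agent.Helper19.QD
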