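import Pool.Agent.Helper95.QD.D
import Pool.Agent.Helper95.QD.F
import Pool.Agent.Helper96.EQ.Tf
import Pool.Agent.Helper85.QD.Far
import Pool.Agent.Helper19.EQ.QPar

/-! # Project QD: one scale -/

set_option autoImplicit false

namespace Pool.Agent.Helper19.QD

open MeasureTheory Set Filter Topology
open Pool.Agent.Helper95.EW (Ac Dl Nr)
open Pool.Agent.Helper71.MR (gt gt_int_pos)
open Pool.Agent.Helper63.EW (ha ma AA S gt_int_ge)
open Pool.Agent.Helper63.EQ (nu Zn Adm)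
open Pool.Agent.Helper96.EQ (Tf R3)
open Pool.Agent.Helper99.MS (ell ff mr GB gg KL cv be g1 EE al ZL CS CE CI cC2 cC2_nonneg CE_nonneg CS_nonneg ell_le_Y
  ell_nonneg)

variable {w : ℝ → ℝ} {Cw B : ℝ}

/-- the final arithmetic -/
theorem arith {I ω Q η q E T3 T6 C c K₀ P0 Pn D X π' : ℝ} (hIω : 0 < I * ω)
    (t1 : 2 * π' * ((η + 2 * q) * Q) ≤ I * ω / 400)
    (t2 : (ω * I / 128 + E * Q) * D ≤ I * ω / 400) (t3 : T3 ≤ I * ω / 400)
    (t4 : I + 2 * π' * (C * (K₀ + 1) * I) ≤ I * ω / 400) (t5 : 2 * π' * X ≤ I * ω / 400)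
    (t6 : T6 ≤ I * ω / 400) (t7 : 2 * π' * (C * (c * ω) * I) ≤ 2 * π' * (I * ω) / 256)
    (t8 : 6 * (I * ω) ≤ 2 * π' * (I * ω))
    (hnear : 2 * π' * (ω * I / 128 - (η + q) * Q) - (ω * I / 128 + E * Q) * D - T3 ≤ P0)
    (hfar : Pn ≤ 2 * π' * (C * (c * ω + K₀ + 1) * I + X + q * Q) + T6)
    (hdiff : P0 - Pn < I) : False := by
  have n1 : 2 * π' * (ω * I / 128 - (η + q) * Q) = 2 * π' * (I * ω) / 128 - 2 * π' * ((η + q) * Q) := by
    ring
  have n2 : 2 * π' * (C * (c * ω + K₀ + 1) * I + X + q * Q) =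
      2 * π' * (C * (c * ω) * I) + 2 * π' * (C * (K₀ + 1) * I) + 2 * π' * X +
        2 * π' * (q * Q) := by
    ring
  have n3 : 2 * π' * ((η + 2 * q) * Q) = 2 * π' * ((η + q) * Q) + 2 * π' * (q * Q) := by ring
  rw [n1] at hnear
  rw [n2] at hfar
  rw [n3] at t1
  linarith

/-- one scale: the contradiction -/
theorem core (h : Adm w Cw) (hB : GB (ff mr) B) {C : ℝ} (hC1 : 1 ≤ C)
    (hup : ∀ m : ℝ, 64 ≤ m → ∀ δ : ℝ, 0 < δ → δ ≤ 1 / 4 →
      ∀ V G : ℝ, 20 + 1 / δ ≤ V → 0 ≤ G → (∀ N : ℕ, (N : ℝ) ≤ Real.exp (V + 3) → |S mr w N| ≤ G * √(N : ℝ)) →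
      |Dr w δ (g1 m) V| ≤ C * (G + 1) * (∫ u : ℝ, gt δ u) + C * B * ell V * Real.exp (-(m / 16)))
    {k : ℕ} (hk : 250 ≤ k) {m δ L Y ω A K₀ c : ℝ} (hm : m = ((4 * k : ℕ) : ℝ)) (hδ : δ = 1 / √m)
    (hL : 1 ≤ L) (hY : 1 ≤ Y) (hω : 1 ≤ ω) (hA : 1 ≤ A) (hK₀ : 0 ≤ K₀) (hc0 : 0 < c)
    (hW : Wd w δ ≤ A * δ * ω) (hν : ω / 2 ≤ nu w (6 / √m))
    (hS : ∀ N : ℕ, (N : ℝ) ≤ Real.exp (2 * Real.exp Y) → |S mr w N| ≤ (c * ω + K₀) * √(N : ℝ))
    (hfp : 100 + 2 * √m ≤ (Real.exp (Y / 2) - 1) / 2)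
    (hpig : ∀ R : ℝ, 0 ≤ R → R ≤ 40 * A * ω →
      (1 + 2 * (2 * R * (cC2 B m * (Y + 3) * (16 * L * CS)))) ^ (2 * (ZL L).card) < (⌊Real.exp (Y / 2)⌋₊ : ℝ) + 1)
    (e1 : 80 * Real.pi * A * (2 * Real.exp (-(m / 32)) + 16 * B * Real.exp (-((m - 4) / 32)) +
      2 * (228 * B * CE / √m)) ≤ 1 / 400)
    (e2 : (1 / 128 + 40 * (4 + 16 * B + 228 * B * CE) * A) * (32 / (L * δ)) ≤ 1 / 400)
    (e3 : 2 * cC2 B m * (40 * A) * (256 / L + 96 / L) ≤ 1 / 400)
    (e4 : 400 * (1 + 2 * Real.pi * C * (K₀ + 1)) ≤ ω)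
    (e5 : 2 * Real.pi * (C * B * (Y + 3) * Real.exp (-(m / 16))) * (4 * m) ≤ 1 / 400)
    (e6 : 2 * cC2 B m * (40 * A) * (Y + 3) * (96 / (L * √((Real.exp (Y / 2) - 1) / 2))) ≤ 1 / 400)
    (e7 : C * c ≤ 1 / 256) : False := by
  have hB0 := hB.nonneg
  have hCE := CE_nonneg
  have hCS := CS_nonneg
  have hpi := Real.pi_gt_three
  have hkR : (250:ℝ) ≤ k := by exact_mod_cast hk
  have hm1 : (1000:ℝ) ≤ m := by rw [hm]; push_cast; linarith
  have hm0 : 0 < m := by linarith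
  have hcc := cC2_nonneg hB0 hm0.le
  have hs0 : 0 < √m := Real.sqrt_pos.2 hm0
  have hs30 : 30 ≤ √m := Real.le_sqrt_of_sq_le (by linarith)
  have hss : √m * √m = m := Real.mul_self_sqrt hm0.le
  have hδ0 : 0 < δ := by rw [hδ]; positivity
  have hδ1 : δ ≤ 1 / 30 := by
    rw [hδ]
    exact one_div_le_one_div_of_le (by norm_num) hs30
  have hδi : 1 / δ = √m := by rw [hδ, one_div_one_div]
  have hδ2 : δ ^ 2 * m = 1 := by
    rw [hδ, div_pow, one_pow, Real.sq_sqrt hm0.le]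
    field_simp
  obtain ⟨hpsi, hQ1⟩ := ps_int h hδ0 (by linarith)
  set Q : ℝ := ∫ y : ℝ, |ps w δ y| with hQ
  set I : ℝ := ∫ u : ℝ, gt δ u with hI
  have hQ0 : 0 ≤ Q := integral_nonneg fun y => abs_nonneg _
  have hI1 : δ ^ 2 / 4 ≤ I := gt_int_ge hδ0.le
  have hI0 : 0 < I := gt_int_pos hδ0
  have hI4 : 1 ≤ I * (4 * m) := by
    have : δ ^ 2 / 4 * (4 * m) = 1 := by linarith
    rw [← this]
    exact mul_le_mul_of_nonneg_right hI1 (by linarith)
  have hQI : Q ≤ 40 * A * (I * ω) := by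
    calc Q ≤ 10 * δ * Wd w δ := hQ1
      _ ≤ 10 * δ * (A * δ * ω) := mul_le_mul_of_nonneg_left hW (by linarith)
      _ = 40 * A * (δ ^ 2 / 4 * ω) := by ring
      _ ≤ 40 * A * (I * ω) := by gcongr
  -- the kernel
  set f : ℝ → ℝ := fun y => ps w δ (y - -(3 * δ / 2)) with hf
  have hfi : Integrable f := hpsi.comp_sub_right _
  have hfs : ∀ y, 1 < |y| → f y = 0 := by
    intro y hy
    apply ps_supp h hδ0.le
    rcases lt_abs.1 hy with h' | h'
    · right; linarith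
    · left; linarith
  have hfQ : ∫ y, |f y| = Q := integral_sub_right_eq_self (fun y => |ps w δ y|) _
  -- recurrence
  set τ : ℝ := Real.exp (Y / 2) - 1 with hτ
  have hE1 : 1 ≤ Real.exp (Y / 2) := Real.one_le_exp (by linarith)
  have hτ0 : 200 ≤ τ := by linarith
  have hEE : Real.exp (Y / 2) * Real.exp (Y / 2) = Real.exp Y := by rw [← Real.exp_add]; congr 1; ring
  have hJ : (⌊Real.exp (Y / 2)⌋₊ : ℝ) ≤ Real.exp (Y / 2) := Nat.floor_le (Real.exp_pos _).le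
  have hJτ : (⌊Real.exp (Y / 2)⌋₊ : ℝ) * τ ≤ Real.exp Y - Real.exp (Y / 2) := by
    calc (⌊Real.exp (Y / 2)⌋₊ : ℝ) * τ ≤ Real.exp (Y / 2) * τ := mul_le_mul_of_nonneg_right hJ (by linarith)
      _ = _ := by rw [hτ, mul_sub, hEE, mul_one]
  have hk2 : 2 ≤ k := by omega
  obtain ⟨n, hn1, hnJ, hcl⟩ := R3 (ε := I) (F := Q) (Y := Y) (τ := τ) (J := ⌊Real.exp (Y / 2)⌋₊) hB hk2 hL hfi hfs
    (by linarith) (by linarith) (by linarith) hI0 hfQ.le (by
      have := hpig (Q / I) (div_nonneg hQ0 hI0.le) (by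
        rw [div_le_iff₀ hI0]
        linarith)
      rw [← hm]
      have e : 2 * (2 * Q * (cC2 B m * (Y + 3) * (16 * L * CS))) / I =
          2 * (2 * (Q / I) * (cC2 B m * (Y + 3) * (16 * L * CS))) := by ring
      rw [e]
      exact this)
  have hclose := hcl 0 (by simp)
  rw [add_zero] at hclose
  have hn1' : (1:ℝ) ≤ n := by exact_mod_cast hn1
  have hnJ' : (n : ℝ) ≤ ⌊Real.exp (Y / 2)⌋₊ := by exact_mod_cast hnJ
  set u : ℝ := n * τ with hu
  have hu1 : τ ≤ u := le_mul_of_one_le_left (by linarith) hn1'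
  have hu2 : u ≤ Real.exp Y - Real.exp (Y / 2) := by
    refine le_trans ?_ hJτ
    exact mul_le_mul_of_nonneg_right hnJ' (by linarith)
  -- the upper bound at the far point
  set G : ℝ := c * ω + K₀ with hG
  have hG0 : 0 ≤ G := by positivity
  set X : ℝ := Real.exp (-(m / 16)) with hX
  have hX0 : 0 < X := Real.exp_pos _
  have hC0 : 0 ≤ C := by linarith
  have hU : ∀ V : ℝ, |V - u| ≤ τ / 2 → |Dr w δ (g1 m) (V + -(3 * δ / 2))| ≤ C * (G + 1) * I + C * B * (Y + 3) * X := by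
    intro V hV
    have hV' := abs_le.1 hV
    have h1 := hup m (by linarith) δ hδ0 (by linarith) (V + -(3 * δ / 2)) G (by rw [hδi]; linarith) hG0 (by
      intro N hN
      apply hS N
      refine hN.trans (Real.exp_le_exp.2 ?_)
      have : 0 < Real.exp Y := Real.exp_pos _
      linarith)
    have h2 : ell (V + -(3 * δ / 2)) ≤ Y + 3 := by
      apply ell_le_Y (by linarith)
      have : 0 < Real.exp Y := Real.exp_pos _
      rw [abs_of_nonneg (by linarith)]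
      linarith
    refine h1.trans ?_
    have h3 : C * B * ell (V + -(3 * δ / 2)) * X ≤ C * B * (Y + 3) * X := by gcongr
    linarith
  have hfar := far_up h hB hk hm hδ hL (u := u) (ρ := τ / 2) (by linarith) (by linarith) (by positivity) hU
  have hnear := near_low h hB hk hm hδ hL (H := ω * I / 128) (by positivity) (by
    rw [← hI]
    calc ω * I / 128 = 1 / 64 * (ω / 2) * I := by ring
      _ ≤ 1 / 64 * nu w (6 / √m) * I := by gcongr)
  rw [← hQ] at hfar hnear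
  have hell : ell u ≤ Y + 3 := by
    apply ell_le_Y (by linarith)
    have : 0 < Real.exp Y := Real.exp_pos _
    rw [abs_of_nonneg (by linarith)]
    linarith
  -- names
  set P0 : ℝ := (∫ v : ℝ, Tf (fun y => ps w δ (y - -(3 * δ / 2))) (gg (4 * k)) (v + 0) * (KL L v : ℂ)).re with hP0
  set Pn : ℝ := (∫ v : ℝ, Tf (fun y => ps w δ (y - -(3 * δ / 2))) (gg (4 * k)) (v + u) * (KL L v : ℂ)).re with hPn
  have hdiff : P0 - Pn < I := by
    have h1 := (Complex.abs_re_le_norm _).trans_lt hclose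
    rw [Complex.sub_re] at h1
    have h2 := (abs_lt.1 h1).1
    have e1 : (∫ v, Tf f (gg (4 * k)) (v + u) * (KL L v : ℂ)).re = Pn := rfl
    have e2 : (∫ v, Tf f (gg (4 * k)) (v + 0) * (KL L v : ℂ)).re = P0 := rfl
    rw [e1, e2] at h2
    linarith
  set q : ℝ := 228 * B * CE / √m with hq
  set η : ℝ := 2 * Real.exp (-(m / 32)) + 16 * B * Real.exp (-((m - 4) / 32)) with hη
  have hq0 : 0 ≤ q := by positivity
  have hη0 : 0 ≤ η := by positivity
  have hIω : 0 < I * ω := by positivity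
  have t1 : 2 * Real.pi * ((η + 2 * q) * Q) ≤ I * ω / 400 := by
    calc 2 * Real.pi * ((η + 2 * q) * Q) ≤ 2 * Real.pi * ((η + 2 * q) * (40 * A * (I * ω))) := by gcongr
      _ = (80 * Real.pi * A * (η + 2 * q)) * (I * ω) := by ring
      _ ≤ 1 / 400 * (I * ω) := mul_le_mul_of_nonneg_right e1 hIω.le
      _ = _ := by ring
  have t2 : (ω * I / 128 + (4 + 16 * B + 228 * B * CE) * Q) * (32 / (L * δ)) ≤ I * ω / 400 := by
    have hLδ : 0 < 32 / (L * δ) := by positivity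
    calc (ω * I / 128 + (4 + 16 * B + 228 * B * CE) * Q) * (32 / (L * δ))
        ≤ (ω * I / 128 + (4 + 16 * B + 228 * B * CE) * (40 * A * (I * ω))) * (32 / (L * δ)) := by gcongr
      _ = ((1 / 128 + 40 * (4 + 16 * B + 228 * B * CE) * A) * (32 / (L * δ))) * (I * ω) := by ring
      _ ≤ 1 / 400 * (I * ω) := mul_le_mul_of_nonneg_right e2 hIω.le
      _ = _ := by ring
  have t3 : (2 * cC2 B m * Q) * (256 / L + 96 / L) ≤ I * ω / 400 := by
    calc (2 * cC2 B m * Q) * (256 / L + 96 / L) ≤ (2 * cC2 B m * (40 * A * (I * ω))) * (256 / L + 96 / L) := by gcongr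
      _ = (2 * cC2 B m * (40 * A) * (256 / L + 96 / L)) * (I * ω) := by ring
      _ ≤ 1 / 400 * (I * ω) := mul_le_mul_of_nonneg_right e3 hIω.le
      _ = _ := by ring
  have t4 : I + 2 * Real.pi * (C * (K₀ + 1) * I) ≤ I * ω / 400 := by
    have := mul_le_mul_of_nonneg_left e4 hI0.le
    linarith
  have t5 : 2 * Real.pi * (C * B * (Y + 3) * X) ≤ I * ω / 400 := by
    have h1 : 0 ≤ 2 * Real.pi * (C * B * (Y + 3) * X) := by positivity
    calc 2 * Real.pi * (C * B * (Y + 3) * X) = 2 * Real.pi * (C * B * (Y + 3) * X) * 1 := by ring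
      _ ≤ 2 * Real.pi * (C * B * (Y + 3) * X) * (I * (4 * m)) := mul_le_mul_of_nonneg_left hI4 h1
      _ = (2 * Real.pi * (C * B * (Y + 3) * X) * (4 * m)) * I := by ring
      _ ≤ 1 / 400 * I := mul_le_mul_of_nonneg_right e5 hI0.le
      _ ≤ 1 / 400 * (I * ω) := mul_le_mul_of_nonneg_left (le_mul_of_one_le_right hI0.le hω) (by norm_num)
      _ = _ := by ring
  have t6 : (2 * cC2 B m * Q) * ell u * (96 / (L * √(τ / 2))) ≤ I * ω / 400 := by
    have h0 : 0 ≤ ell u := ell_nonneg u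
    calc (2 * cC2 B m * Q) * ell u * (96 / (L * √(τ / 2)))
        ≤ (2 * cC2 B m * (40 * A * (I * ω))) * (Y + 3) * (96 / (L * √(τ / 2))) := by gcongr
      _ = (2 * cC2 B m * (40 * A) * (Y + 3) * (96 / (L * √(τ / 2)))) * (I * ω) := by ring
      _ ≤ 1 / 400 * (I * ω) := mul_le_mul_of_nonneg_right e6 hIω.le
      _ = _ := by ring
  have t7 : 2 * Real.pi * (C * (c * ω) * I) ≤ 2 * Real.pi * (I * ω) / 256 := by
    have h1 : 0 ≤ 2 * Real.pi * (I * ω) := by positivity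
    calc 2 * Real.pi * (C * (c * ω) * I) = 2 * Real.pi * (I * ω) * (C * c) := by ring
      _ ≤ 2 * Real.pi * (I * ω) * (1 / 256) := mul_le_mul_of_nonneg_left e7 h1
      _ = _ := by ring
  have t8 : 6 * (I * ω) ≤ 2 * Real.pi * (I * ω) := mul_le_mul_of_nonneg_right (by linarith) hIω.le
  exact arith hIω t1 t2 t3 t4 t5 t6 t7 t8 hnear hfar hdiff

end Pool.Agent.Helper19.QD
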