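import Pool.Agent.Helper19.EQ.Core
import Pool.Agent.Helper96.EQ.Good

/-! # Project QD: the theorem -/

set_option autoImplicit false

namespace Pool.Agent.Helper19.QD

open MeasureTheory Set Filter Topology
open Pool.Agent.Helper95.EW (Ac Dl Nr)
open Pool.Agent.Helper71.MR (gt)
open Pool.Agent.Helper63.EW (S edge_le)
open Pool.Agent.Helper63.EQ (nu Adm)
open Pool.Agent.Helper95.EQ (nu_ge)
open Pool.Agent.Helper95.QD (Dr_up fin1b)
open Pool.Agent.Helper99.MS (ff mr GB CE cC2 CE_nonneg)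

variable {w : ℝ → ℝ} {Cw B : ℝ}

/-- the weight is large next to the edge -/
theorem w_large (h : Adm w Cw) (M : ℝ) : ∀ᶠ m : ℝ in atTop, M ≤ w (1 - 7 * (1 / √m)) := by
  obtain ⟨t, ht, hMt⟩ := h.hub M
  have h1 : Tendsto (fun m : ℝ => 7 * (1 / √m)) atTop (𝓝 (7 * 0)) :=
    (Tendsto.div_atTop tendsto_const_nhds Real.tendsto_sqrt_atTop).const_mul 7
  rw [mul_zero] at h1
  filter_upwards [h1.eventually (ge_mem_nhds (show 0 < 1 - t by linarith [ht.2])), eventually_gt_atTop (0:ℝ)]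
    with m hm hm0
  have hs : 0 < √m := Real.sqrt_pos.2 hm0
  have h2 : 0 < 7 * (1 / √m) := by positivity
  exact hMt.le.trans (h.hw ht ⟨by linarith [ht.1], by linarith⟩ (by linarith))

/-- the level measure -/
theorem nu_large (h : Adm w Cw) : ∀ᶠ m : ℝ in atTop, w (1 - 7 * (1 / √m)) / 2 ≤ nu w (6 / √m) := by
  filter_upwards [w_large h (2 * w (Real.exp (-(1 / 2)))), eventually_ge_atTop (256:ℝ)] with m h1 hm
  have hs : 16 ≤ √m := Real.le_sqrt_of_sq_le (by linarith)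
  have hs0 : 0 < √m := by linarith
  have h6 : 0 < 6 / √m := by positivity
  have h67 : 6 / √m < 7 / √m := div_lt_div_of_pos_right (by norm_num) hs0
  have h7 : 7 / √m ≤ 1 / 2 := by
    rw [div_le_div_iff₀ hs0 (by norm_num)]
    linarith
  have h2 := nu_ge h h6 h67 h7
  have e : 7 * (1 / √m) = 7 / √m := by ring
  have h3 : w (1 - 7 * (1 / √m)) ≤ w (Real.exp (-(7 / √m))) := by
    apply h.hw
    · rw [e]; exact ⟨by linarith, by linarith [div_pos (show (0:ℝ) < 7 by norm_num) hs0]⟩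
    · exact ⟨(Real.exp_pos _).le, Real.exp_lt_one_iff.mpr (by linarith)⟩
    · rw [e]
      have := Real.add_one_le_exp (-(7 / √m))
      linarith
  linarith

/-- the weight is at most a power -/
theorem w_pow (h : Adm w Cw) : ∀ᶠ m : ℝ in atTop, w (1 - 7 * (1 / √m)) ≤ 2 * |Cw| * √m := by
  filter_upwards [eventually_ge_atTop (256:ℝ)] with m hm
  have hm0 : 0 < m := by linarith
  have hs : 16 ≤ √m := Real.le_sqrt_of_sq_le (by linarith)
  have hs0 : 0 < √m := by linarith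
  have hss : √m * √m = m := Real.mul_self_sqrt hm0.le
  have e : 7 * (1 / √m) = 7 / √m := by ring
  have hC : ∀ N : ℕ, 1 ≤ N → w (1 - 1 / N) ≤ |Cw| * √N := by
    intro N hN
    refine (h.hC N hN).trans ?_
    exact mul_le_mul_of_nonneg_right (le_abs_self _) (Real.sqrt_nonneg _)
  have h7 : 7 / √m ≤ 1 / 2 := by
    rw [div_le_div_iff₀ hs0 (by norm_num)]
    linarith
  have h70 : 0 < 7 / √m := by positivity
  have h1 := edge_le h.hw hC (abs_nonneg Cw) (t := 1 - 7 / √m) ⟨by linarith, by linarith⟩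
  rw [e]
  refine h1.trans ?_
  have h2 : 1 - (1 - 7 / √m) = 7 / √m := by ring
  rw [h2]
  have h3 : 1 / √m ≤ √(7 / √m) := by
    apply Real.le_sqrt_of_sq_le
    rw [div_pow, one_pow, Real.sq_sqrt hm0.le, div_le_div_iff₀ hm0 hs0]
    nlinarith
  have h4 : 0 < 1 / √m := by positivity
  rw [div_le_iff₀ (by linarith)]
  have h5 : √m * (1 / √m) = 1 := by field_simp
  have h6 : 0 ≤ 2 * |Cw| * √m := by positivity
  calc 2 * |Cw| = 2 * |Cw| * √m * (1 / √m) := by rw [mul_assoc (2 * |Cw|), h5, mul_one]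
    _ ≤ 2 * |Cw| * √m * √(7 / √m) := mul_le_mul_of_nonneg_left h3 h6

/-- the bound of finitely many sums -/
theorem small_sums (a w : _) (X : ℕ) : ∃ K : ℝ, 0 ≤ K ∧ ∀ N : ℕ, N < X → |S a w N| ≤ K * √(N : ℝ) := by
  refine ⟨∑ n ∈ Finset.range X, |S a w n|, Finset.sum_nonneg fun n _ => abs_nonneg _, ?_⟩
  intro N hN
  rcases Nat.eq_zero_or_pos N with h0 | h0
  · rw [h0]
    simp [S]
  · have h1 : |S a w N| ≤ ∑ n ∈ Finset.range X, |S a w n| :=
      Finset.single_le_sum (f := fun n => |S a w n|) (fun n _ => abs_nonneg _) (Finset.mem_range.2 hN)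
    have h2 : 1 ≤ √(N : ℝ) := by
      apply Real.one_le_sqrt.2
      exact_mod_cast h0
    have h3 : 0 ≤ ∑ n ∈ Finset.range X, |S a w n| := Finset.sum_nonneg fun n _ => abs_nonneg _
    nlinarith

/-- **the theorem** -/
theorem quant (h : Adm w Cw) {β : ℝ} (hβ0 : 0 < β) (hβ : β < 1) : ∃ c : ℝ, 0 < c ∧ ∀ X : ℕ, ∃ N : ℕ, X ≤ N ∧
    c * √(N : ℝ) * w (1 - Real.log (Real.log N) ^ (-β)) < |S mr w N| := by
  obtain ⟨C, hC1, hup⟩ := Dr_up h
  have hC0 : 0 < C := by linarith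
  refine ⟨1 / (256 * C), by positivity, ?_⟩
  by_contra hcon
  push Not at hcon
  obtain ⟨X₀, hX₀⟩ := hcon
  set c : ℝ := 1 / (256 * C) with hc
  have hc0 : 0 < c := by positivity
  obtain ⟨B, hB⟩ := fin1b h hβ0 hβ.le c X₀ (fun N hN => (hX₀ N hN).trans (le_of_eq (by ring)))
  have hB0 := hB.nonneg
  have hCE := CE_nonneg
  obtain ⟨A, hA1, hgood⟩ := good h (C₁ := 7) (by norm_num)
  obtain ⟨K₀, hK₀, hsm⟩ := small_sums mr w (max X₀ 27)
  set a : ℝ := 1 / 2 + (1 - β) / 8 with ha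
  set b : ℝ := 1 / 2 + (1 - β) / 4 with hb
  have ha1 : 1 / 2 < a := by rw [ha]; linarith
  have hab : a < b := by rw [ha, hb]; linarith
  have hb1 : b < 1 := by rw [hb]; linarith
  have hb0 : 0 < b := by linarith
  have hβb : β * b < 1 / 2 := by rw [hb]; nlinarith
  have hpi := Real.pi_pos
  have hε : (0:ℝ) < 1 / 400 := by norm_num
  have E1 := pl1 B (80 * Real.pi * A) hε
  have E2 := pl2 ha1 ((1 / 128 + 40 * (4 + 16 * B + 228 * B * CE) * A) * 32) hε
  have E3 := pl3 hB0 ha1 (K := 2 * (40 * A) * 352) (by positivity) hε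
  have E4 := w_large h (400 * (1 + 2 * Real.pi * C * (K₀ + 1)))
  have E5 := pl5 hb1 (K := 8 * Real.pi * C * B) (by positivity) hε
  have E6 := pl6 hB0 (show 0 < a by linarith) hb0 hb1 (K := 80 * A) (by positivity) hε
  have E7 := pl7 hB0 (show 0 < a by linarith) hab hb1 (K := 40 * A * (2 * |Cw|)) (by positivity)
  have E8 := pl8 hb0
  have E9 := pl9 h.hw hb0 hβ0 hβb (C := 7) (by norm_num)
  have E10 := nu_large h
  have E11 := w_pow h
  obtain ⟨m₀, hm₀⟩ := eventually_atTop.1 (E1.and (E2.and (E3.and (E4.and (E5.and (E6.and (E7.and (E8.and (E9.and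
    (E10.and E11))))))))))
  obtain ⟨j₀, hj₀⟩ := exists_nat_ge m₀
  obtain ⟨j, hj, hW⟩ := hgood (j₀ + 5)
  have hj1 : 5 ≤ j := by omega
  obtain ⟨i, rfl⟩ : ∃ i, j = i + 1 := ⟨j - 1, by omega⟩
  set k : ℕ := 4 ^ i with hk
  have hk250 : 250 ≤ k := by
    calc 250 ≤ 4 ^ 4 := by norm_num
      _ ≤ 4 ^ i := Nat.pow_le_pow_right (by norm_num) (by omega)
  set m : ℝ := ((4 * k : ℕ) : ℝ) with hm
  have hm4 : m = (2 ^ (i + 1)) ^ 2 := by
    rw [hm, hk]
    push_cast
    rw [← pow_mul, mul_comm (i + 1) 2, pow_mul]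
    norm_num
    ring
  have hsm' : √m = 2 ^ (i + 1) := by
    rw [hm4]
    exact Real.sqrt_sq (by positivity)
  have hδ : ((1:ℝ) / 2) ^ (i + 1) = 1 / √m := by
    rw [hsm', div_pow, one_pow]
  have hmm₀ : m₀ ≤ m := by
    refine hj₀.trans ?_
    rw [hm]
    have h1 : i < 4 ^ i := Nat.lt_pow_self (by norm_num)
    have h2 : j₀ ≤ 4 * k := by rw [hk]; omega
    exact_mod_cast h2
  obtain ⟨f1, f2, f3, f4, f5, f6, f7, f8, f9, f10, f11⟩ := hm₀ m hmm₀
  have hm1000 : (1000:ℝ) ≤ m := by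
    rw [hm]
    have : 1000 ≤ 4 * k := by omega
    exact_mod_cast this
  have hm0 : 0 < m := by linarith
  have hs0 : 0 < √m := Real.sqrt_pos.2 hm0
  rw [hδ] at hW
  set ω : ℝ := w (1 - 7 * (1 / √m)) with hω
  have hLa : 1 ≤ m ^ a := Real.one_le_rpow (by linarith) (by linarith)
  have hYb : 1 ≤ m ^ b := Real.one_le_rpow (by linarith) (by linarith)
  have hω1 : 1 ≤ ω := by
    have : 0 ≤ 2 * Real.pi * C * (K₀ + 1) := by positivity
    linarith
  refine core h hB hC1 (fun m hm δ hδ0 hδ1 V G => hup B hB m hm δ hδ0 hδ1 V G) hk250 (m := m) (δ := 1 / √m)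
    (L := m ^ a) (Y := m ^ b) (ω := ω) (A := A) (K₀ := K₀) (c := c) hm rfl hLa hYb hω1 hA1 hK₀ hc0 hW f10 ?_ f8 ?_
    f1 ?_ ?_ f4 ?_ ?_ ?_
  · intro N hN
    have hw0 : 0 ≤ c * ω * √(N : ℝ) := by positivity
    rcases lt_or_ge N (max X₀ 27) with h1 | h1
    · have := hsm N h1
      linarith
    · have h2 := hX₀ N ((le_max_left _ _).trans h1)
      have h3 := (Pool.Agent.Helper99.MS.llog_ge ((le_max_right _ _).trans h1)).1
      have h4 := f9.2.2 N hN h3
      have h5 : c * √(N : ℝ) * w (1 - Real.log (Real.log N) ^ (-β)) ≤ c * √(N : ℝ) * ω :=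
        mul_le_mul_of_nonneg_left h4 (by positivity)
      have h6 : 0 ≤ K₀ * √(N : ℝ) := by positivity
      linarith
  · intro R hR0 hR
    apply f7 R hR0
    refine hR.trans ?_
    have h1 : 40 * A * ω ≤ 40 * A * (2 * |Cw| * √m) := mul_le_mul_of_nonneg_left f11 (by positivity)
    linarith
  · have e : 32 / (m ^ a * (1 / √m)) = 32 * (√m / m ^ a) := by
      have : m ^ a ≠ 0 := by positivity
      field_simp
    rw [e, ← mul_assoc]
    exact f2
  · have e : 2 * cC2 B m * (40 * A) * (256 / m ^ a + 96 / m ^ a) = 2 * (40 * A) * 352 * (cC2 B m / m ^ a) := by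
      ring
    rw [e]
    exact f3
  · have e : 2 * Real.pi * (C * B * (m ^ b + 3) * Real.exp (-(m / 16))) * (4 * m) =
        8 * Real.pi * C * B * (m * ((m ^ b + 3) * Real.exp (-(m / 16)))) := by ring
    rw [e]
    exact f5
  · have e : 2 * cC2 B m * (40 * A) * (m ^ b + 3) * (96 / (m ^ a * √((Real.exp (m ^ b / 2) - 1) / 2))) =
        80 * A * (cC2 B m * (m ^ b + 3) * (96 / (m ^ a * √((Real.exp (m ^ b / 2) - 1) / 2)))) := by ring
    rw [e]
    exact f6
  · rw [hc]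
    apply le_of_eq
    field_simp

end Pool.Agent.Helper19.QD
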