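import Pool.Agent.Helper19.EQ.QPar

/-!
# Project QD: the parameters of `Helper99.MS.Param` (`L = √m * lm m ^ 2`, `Y = √m * lm m ^ 19`)
-/

set_option autoImplicit false

namespace Pool.Agent.Helper19.QD

open Finset MeasureTheory Set Filter Topology Pool.Agent.Helper99.MS
open Pool.Agent.Helper19.EQ

theorem ql2 (K : ℝ) {ε : ℝ} (hε : 0 < ε) : ∀ᶠ m : ℝ in atTop, K * (√m / pL m) ≤ ε := by
  have h1 : Tendsto (fun m : ℝ => K * (1 / lm m ^ 2)) atTop (𝓝 (K * 0)) :=
    (Tendsto.div_atTop tendsto_const_nhds ((tendsto_pow_atTop (by norm_num)).comp lm_tendsto)).const_mul K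
  rw [mul_zero] at h1
  filter_upwards [h1.eventually (ge_mem_nhds hε), basic] with m h hb
  obtain ⟨b1, b2, _, _, _, b6⟩ := hb
  have hs0 : √m ≠ 0 := by linarith
  have hl0 : lm m ≠ 0 := by linarith
  have e : √m / pL m = 1 / lm m ^ 2 := by
    unfold pL
    field_simp
  rw [e]
  exact h

theorem pL_ge {m : ℝ} (b2 : 1024 ≤ lm m) : √m ≤ pL m := by
  unfold pL
  have : 1 ≤ lm m ^ 2 := one_le_pow₀ (by linarith)
  exact le_mul_of_one_le_right (Real.sqrt_nonneg m) this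

theorem pY_ge {m : ℝ} (b2 : 1024 ≤ lm m) : √m ≤ pY m := by
  unfold pY
  have : 1 ≤ lm m ^ 19 := one_le_pow₀ (by linarith)
  exact le_mul_of_one_le_right (Real.sqrt_nonneg m) this

theorem ql3 {B : ℝ} (hB : 0 ≤ B) {K : ℝ} (hK : 0 ≤ K) {ε : ℝ} (hε : 0 < ε) :
    ∀ᶠ m : ℝ in atTop, K * (cC2 B m / pL m) ≤ ε := by
  filter_upwards [pl_neg (show (-(1/8):ℝ) < 0 by norm_num) (K * (B * (16 + 44 * CI))) hε, basic,
    eventually_ge_atTop (1:ℝ)] with m h hb hm
  obtain ⟨b1, b2, _, _, _, b6⟩ := hb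
  have hm0 : 0 < m := by linarith
  have hs0 : 0 < √m := by linarith
  have hCI := CI_nonneg
  have hc := cC2_nonneg hB hm0.le
  calc K * (cC2 B m / pL m) ≤ K * ((B * (16 + 44 * CI) * m ^ (3/8 : ℝ)) / √m) := by
        apply mul_le_mul_of_nonneg_left _ hK
        exact div_le_div₀ (by positivity) (cC2_le hB hm) hs0 (pL_ge b2)
    _ = K * (B * (16 + 44 * CI)) * (m ^ (3/8 : ℝ) / √m) := by ring
    _ = K * (B * (16 + 44 * CI)) * m ^ (-(1/8) : ℝ) := by
        rw [Real.sqrt_eq_rpow, ← Real.rpow_sub hm0]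
        norm_num
    _ ≤ ε := h

theorem ql5 {K : ℝ} (hK : 0 ≤ K) {ε : ℝ} (hε : 0 < ε) : ∀ᶠ m : ℝ in atTop,
    K * (m * ((pY m + 3) * Real.exp (-(m / 16)))) ≤ ε := by
  filter_upwards [pl_neg (show (-1:ℝ) < 0 by norm_num) (K * 4) hε, expneg_small (show (0:ℝ) < 16 by norm_num) 3,
    basic] with m h he hb
  obtain ⟨b1, b2, b3, _, _, b6⟩ := hb
  have hm0 : 0 < m := by linarith
  have h2 : 0 ≤ pY m := (Real.sqrt_nonneg m).trans (pY_ge b2)
  have h3 : m * (4 * m * m ^ (-3 : ℝ)) = 4 * m ^ (-1 : ℝ) := by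
    have : m ^ (-1 : ℝ) = m ^ 2 * m ^ (-3 : ℝ) := by
      rw [← Real.rpow_natCast, ← Real.rpow_add hm0]; norm_num
    rw [this]; ring
  have h4 : pY m + 3 ≤ 4 * m := by linarith
  calc K * (m * ((pY m + 3) * Real.exp (-(m / 16)))) ≤ K * (m * (4 * m * m ^ (-3 : ℝ))) := by gcongr
    _ = K * 4 * m ^ (-1 : ℝ) := by rw [h3]; ring
    _ ≤ ε := h

theorem ql6 {B : ℝ} (hB : 0 ≤ B) {K : ℝ} (hK : 0 ≤ K) {ε : ℝ} (hε : 0 < ε) : ∀ᶠ m : ℝ in atTop,
    K * (cC2 B m * (pY m + 3) * (96 / (pL m * √((Real.exp (pY m / 2) - 1) / 2)))) ≤ ε := by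
  filter_upwards [pl_neg (show (-(5/8):ℝ) < 0 by norm_num) (K * (B * (16 + 44 * CI)) * 4 * 96 * 2) hε, basic]
    with m h hb
  obtain ⟨b1, b2, b3, b4, _, b6⟩ := hb
  have hm : (1:ℝ) ≤ m := by linarith
  have hm0 : (0:ℝ) < m := by linarith
  have hCI := CI_nonneg
  have hc := cC2_nonneg hB hm0.le
  have hE := exp_big b1 b2 b6
  have h6 : 0 ≤ pY m := (Real.sqrt_nonneg m).trans (pY_ge b2)
  have h7 : 1 ≤ pL m := by
    have := pL_ge b2
    linarith
  have h9 : m ^ 2 / 2 ≤ √((Real.exp (pY m / 2) - 1) / 2) := by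
    apply Real.le_sqrt_of_sq_le
    have h11 : (2:ℝ) ≤ m ^ 4 := by
      calc (2:ℝ) ≤ 8 ^ 4 := by norm_num
        _ ≤ m ^ 4 := pow_le_pow_left₀ (by norm_num) b1 4
    calc (m ^ 2 / 2) ^ 2 = m ^ 4 / 4 := by ring
      _ ≤ (m ^ 4 - 1) / 2 := by linarith
      _ ≤ _ := by linarith
  have h12 : 96 / (pL m * √((Real.exp (pY m / 2) - 1) / 2)) ≤ 96 * 2 / m ^ 2 := by
    have h13 : m ^ 2 / 2 ≤ pL m * √((Real.exp (pY m / 2) - 1) / 2) :=
      h9.trans (le_mul_of_one_le_left (Real.sqrt_nonneg _) h7)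
    calc 96 / (pL m * √((Real.exp (pY m / 2) - 1) / 2)) ≤ 96 / (m ^ 2 / 2) :=
          div_le_div_of_nonneg_left (by norm_num) (by positivity) h13
      _ = _ := by field_simp
  have h15 : pY m + 3 ≤ 4 * m := by linarith
  calc K * (cC2 B m * (pY m + 3) * (96 / (pL m * √((Real.exp (pY m / 2) - 1) / 2))))
      ≤ K * ((B * (16 + 44 * CI) * m ^ (3/8 : ℝ)) * (4 * m) * (96 * 2 / m ^ 2)) := by
        have h16 := cC2_le hB hm
        gcongr
    _ = K * (B * (16 + 44 * CI)) * 4 * 96 * 2 * (m ^ (3/8 : ℝ) * m / m ^ 2) := by ring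
    _ = K * (B * (16 + 44 * CI)) * 4 * 96 * 2 * m ^ (-(5/8) : ℝ) := by
        congr 1
        rw [show (-(5/8) : ℝ) = 3/8 + 1 - 2 by norm_num, Real.rpow_sub hm0, Real.rpow_add hm0, Real.rpow_one,
          Real.rpow_two]
    _ ≤ ε := h

/-- the pigeonhole condition -/
theorem ql7 {B : ℝ} (hB : 0 ≤ B) {K : ℝ} (hK : 0 ≤ K) :
    ∀ᶠ m : ℝ in atTop, ∀ R : ℝ, 0 ≤ R → R ≤ K * √m →
      (1 + 2 * (2 * R * (cC2 B m * (pY m + 3) * (16 * pL m * CS)))) ^ (2 * (ZL (pL m)).card) <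
        (⌊Real.exp (pY m / 2)⌋₊ : ℝ) + 1 := by
  obtain ⟨L₀, hL₀, hcard⟩ := ZL_card
  have hCS := CS_nonneg
  have hLt : Tendsto (fun m : ℝ => pL m) atTop atTop := by
    unfold pL
    exact Real.tendsto_sqrt_atTop.atTop_mul_atTop₀ ((tendsto_pow_atTop (by norm_num)).comp lm_tendsto)
  filter_upwards [cC2_small hB, basic, hLt.eventually_ge_atTop L₀,
    eventually_ge_atTop (1 + 2 * (2 * K * (4 * (16 * CS))))] with m h2 hb hL hm2 R hR0 hR
  obtain ⟨b1, b2, b3, b4, _, b6⟩ := hb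
  have hm : (1:ℝ) ≤ m := by linarith
  have hm0 : (0:ℝ) < m := by linarith
  have hlm : 0 ≤ lm m := by linarith
  have hl : 0 ≤ Real.log m := Real.log_nonneg hm
  have hc := cC2_nonneg hB hm0.le
  have h3 : cC2 B m ≤ √m := by
    refine h2.trans ?_
    rw [Real.sqrt_eq_rpow]
    exact Real.rpow_le_rpow_of_exponent_le hm (by norm_num)
  have h6 : 0 ≤ pY m := (Real.sqrt_nonneg m).trans (pY_ge b2)
  have h7 : 0 ≤ pL m := (Real.sqrt_nonneg m).trans (pL_ge b2)
  have hs : √m * √m = m := Real.mul_self_sqrt hm0.le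
  have hs0 : 0 ≤ √m := Real.sqrt_nonneg m
  have hbase : 0 ≤ 1 + 2 * (2 * R * (cC2 B m * (pY m + 3) * (16 * pL m * CS))) := by positivity
  have h8 : 2 * (2 * R * (cC2 B m * (pY m + 3) * (16 * pL m * CS))) ≤
      2 * (2 * (K * √m) * (√m * (4 * m) * (16 * m * CS))) := by
    gcongr
    linarith
  have h9 : 2 * (2 * (K * √m) * (√m * (4 * m) * (16 * m * CS))) = 2 * (2 * K * (4 * (16 * CS))) * m ^ 3 := by
    calc 2 * (2 * (K * √m) * (√m * (4 * m) * (16 * m * CS)))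
        = 2 * (2 * K * (4 * (16 * CS))) * (√m * √m) * m ^ 2 := by ring
      _ = _ := by rw [hs]; ring
  rw [h9] at h8
  have h11 : 1 ≤ m ^ 3 := one_le_pow₀ hm
  have hS : 1 + 2 * (2 * R * (cC2 B m * (pY m + 3) * (16 * pL m * CS))) ≤ m ^ 4 := by
    calc 1 + 2 * (2 * R * (cC2 B m * (pY m + 3) * (16 * pL m * CS)))
        ≤ m ^ 3 + 2 * (2 * K * (4 * (16 * CS))) * m ^ 3 := by linarith
      _ = m ^ 3 * (1 + 2 * (2 * K * (4 * (16 * CS)))) := by ring
      _ ≤ m ^ 3 * m := mul_le_mul_of_nonneg_left hm2 (by linarith)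
      _ = m ^ 4 := by ring
  have hcd := hcard (pL m) hL
  have hLpos : 0 < pL m := by linarith
  have hlogL : Real.log (pL m) ≤ Real.log m := Real.log_le_log hLpos b4
  set N := (ZL (pL m)).card with hN
  have h4 : (1 + 2 * (2 * R * (cC2 B m * (pY m + 3) * (16 * pL m * CS)))) ^ (2 * N) ≤ (m ^ 4) ^ (2 * N) :=
    pow_le_pow_left₀ hbase hS _
  have h5 : (m ^ 4) ^ (2 * N) = Real.exp (8 * N * Real.log m) := by
    rw [← pow_mul, ← Real.exp_log (pow_pos hm0 _), Real.log_pow]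
    congr 1
    push_cast
    ring
  have h10 : (8:ℝ) * N * Real.log m ≤ pY m / 2 := by
    have hc' : (N : ℝ) ≤ pL m * Real.log m := hcd.trans (mul_le_mul_of_nonneg_left hlogL h7)
    calc (8:ℝ) * N * Real.log m ≤ 8 * (pL m * Real.log m) * Real.log m := by gcongr
      _ = 8 * √m * lm m ^ 18 := by
          unfold pL
          rw [← lm_pow hm]
          ring
      _ = (16 * √m * lm m ^ 18) / 2 := by ring
      _ ≤ (lm m * √m * lm m ^ 18) / 2 := by
          gcongr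
          linarith
      _ = _ := by unfold pY; ring
  calc _ ≤ (m ^ 4) ^ (2 * N) := h4
    _ = Real.exp (8 * N * Real.log m) := h5
    _ ≤ Real.exp (pY m / 2) := Real.exp_le_exp.2 h10
    _ < _ := Nat.lt_floor_add_one _

theorem ql8 : ∀ᶠ m : ℝ in atTop, 100 + 2 * √m ≤ (Real.exp (pY m / 2) - 1) / 2 := by
  filter_upwards [basic, eventually_ge_atTop (300:ℝ)] with m hb hm
  obtain ⟨b1, b2, b3, b4, _, b6⟩ := hb
  have hm0 : (0:ℝ) < m := by linarith
  have hE := exp_big b1 b2 b6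
  have hs : √m ≤ m := by
    rw [Real.sqrt_le_left hm0.le]
    nlinarith
  have h2 : m ^ 2 ≤ m ^ 4 := pow_le_pow_right₀ (by linarith) (by norm_num)
  nlinarith

/-- `x / (log x)^3` is nondecreasing from `exp 3` on -/
theorem gauge_mono {x y : ℝ} (hx : Real.exp 3 ≤ x) (hxy : x ≤ y) :
    Real.log y ^ 3 / y ≤ Real.log x ^ 3 / x := by
  have hx0 : 0 < x := (Real.exp_pos 3).trans_le hx
  have hy0 : 0 < y := hx0.trans_le hxy
  have hlx : 3 ≤ Real.log x := by
    rw [Real.le_log_iff_exp_le hx0]; exact hx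
  have hly : 3 ≤ Real.log y := by
    rw [Real.le_log_iff_exp_le hy0]; exact hx.trans hxy
  -- `log y ≤ log x * (y/x)^(1/3)`
  set t : ℝ := Real.log y / Real.log x with ht
  have ht1 : 1 ≤ t := by
    rw [ht, one_le_div (by linarith)]
    exact Real.log_le_log hx0 hxy
  have h1 : Real.log y = Real.log x + Real.log (y / x) := by
    rw [Real.log_div hy0.ne' hx0.ne']; ring
  have h2 : t = 1 + Real.log (y / x) / Real.log x := by
    rw [ht, h1]
    field_simp
  -- `t ≤ exp (t - 1)`, `3 * (t - 1) ≤ log (y / x)`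
  have h3 : 3 * (t - 1) ≤ Real.log (y / x) := by
    have h0 : 0 ≤ Real.log (y / x) := Real.log_nonneg (by rw [one_le_div hx0]; exact hxy)
    have h4 : t - 1 = Real.log (y / x) / Real.log x := by linarith
    rw [h4, ← mul_div_assoc, div_le_iff₀ (by linarith)]
    nlinarith
  have h5 : t ^ 3 ≤ y / x := by
    have h6 : t ≤ Real.exp (t - 1) := by
      have := Real.add_one_le_exp (t - 1)
      linarith
    calc t ^ 3 ≤ Real.exp (t - 1) ^ 3 := pow_le_pow_left₀ (by linarith) h6 3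
      _ = Real.exp (3 * (t - 1)) := by rw [← Real.exp_nat_mul]; norm_num
      _ ≤ Real.exp (Real.log (y / x)) := Real.exp_le_exp.2 h3
      _ = y / x := Real.exp_log (by positivity)
  have h7 : Real.log y = Real.log x * t := by
    rw [ht]; field_simp
  rw [h7, mul_pow, div_le_div_iff₀ hy0 hx0]
  have h8 : 0 < Real.log x ^ 3 := by positivity
  have h9 : t ^ 3 * x ≤ y := by
    rw [le_div_iff₀ hx0] at h5
    exact h5
  nlinarith

/-- the gauge -/
theorem ql9 {w : ℝ → ℝ} (hw : MonotoneOn w (Ico 0 1)) : ∀ᶠ m : ℝ in atTop,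
      0 ≤ 1 - 7 * (1 / √m) ∧ 1 - 7 * (1 / √m) < 1 ∧
      ∀ N : ℕ, (N : ℝ) ≤ Real.exp (2 * Real.exp (pY m)) → Real.exp 93 ≤ Real.log (Real.log N) →
        w (1 - Real.log (Real.log (Real.log N)) ^ 3 / Real.log (Real.log N)) ≤ w (1 - 7 * (1 / √m)) := by
  filter_upwards [basic, eventually_ge_atTop (10000:ℝ)] with m hb hm
  obtain ⟨b1, b2, b3, b4, _, b6⟩ := hb
  have hm0 : 0 < m := by linarith
  have hm1 : 1 ≤ m := by linarith
  have hs0 : 0 < √m := by linarith
  have hs100 : 100 ≤ √m := Real.le_sqrt_of_sq_le (by linarith)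
  have hq : 7 * (1 / √m) ≤ 1 := by
    rw [mul_one_div, div_le_one hs0]; linarith
  have hq0 : 0 < 7 * (1 / √m) := by positivity
  refine ⟨by linarith, by linarith, ?_⟩
  intro N hN hl
  have h6 : 0 ≤ pY m := (Real.sqrt_nonneg m).trans (pY_ge b2)
  have h3 := llog_le_nat h6 N hN
  have hYs := pY_ge b2
  set x : ℝ := Real.log (Real.log N) with hx
  have he93 : (94:ℝ) ≤ Real.exp 93 := by
    have := Real.add_one_le_exp (93:ℝ)
    linarith
  have hx0 : 0 < x := by linarith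
  have hx3 : Real.exp 3 ≤ x := (Real.exp_le_exp.2 (by norm_num)).trans hl
  have hlx : 93 ≤ Real.log x := by
    rw [Real.le_log_iff_exp_le hx0]; exact hl
  -- the value at the end of the range
  have h4 := gauge_mono hx3 h3
  have hlY : lm m ^ 8 / 2 ≤ Real.log (pY m + 1) := by
    have h7 := Real.log_le_log hs0 (hYs.trans (by linarith : pY m ≤ pY m + 1))
    rw [Real.log_sqrt hm0.le, ← lm_pow hm1] at h7
    exact h7
  have hY2 : pY m + 1 ≤ 2 * (√m * lm m ^ 19) := by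
    have : pY m = √m * lm m ^ 19 := rfl
    linarith
  have h5 : 7 * (1 / √m) ≤ Real.log (pY m + 1) ^ 3 / (pY m + 1) := by
    have hlm0 : 0 < lm m := by linarith
    have hl19 : 0 < lm m ^ 19 := by positivity
    have hY0 : 0 < pY m + 1 := by linarith
    calc 7 * (1 / √m) ≤ lm m ^ 5 / (16 * √m) := by
          rw [mul_one_div, div_le_div_iff₀ hs0 (by positivity)]
          have h8 : (1024:ℝ) ≤ lm m ^ 5 := by
            calc (1024:ℝ) ≤ lm m := b2
              _ = lm m ^ 1 := by ring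
              _ ≤ lm m ^ 5 := pow_le_pow_right₀ (by linarith) (by norm_num)
          nlinarith
      _ = (lm m ^ 8 / 2) ^ 3 / (2 * (√m * lm m ^ 19)) := by
          have : lm m ≠ 0 := by linarith
          field_simp
          ring
      _ ≤ Real.log (pY m + 1) ^ 3 / (pY m + 1) := by
          apply div_le_div₀ (pow_nonneg ((by positivity : (0:ℝ) ≤ lm m ^ 8 / 2).trans hlY) 3) _ hY0 hY2
          exact pow_le_pow_left₀ (by positivity) hlY 3
  -- the value is at most one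
  have h9 : Real.log x ^ 3 / x ≤ 1 := by
    have h10 := gauge_mono (x := Real.exp 93) (y := x) (Real.exp_le_exp.2 (by norm_num)) hl
    rw [Real.log_exp] at h10
    refine h10.trans ?_
    rw [div_le_one (Real.exp_pos _)]
    have h11 : (2:ℝ) ^ 93 ≤ Real.exp 93 := by
      have h12 : Real.exp 93 = Real.exp 1 ^ 93 := by rw [← Real.exp_nat_mul]; norm_num
      rw [h12]
      apply pow_le_pow_left₀ (by norm_num)
      have := Real.add_one_le_exp (1:ℝ)
      linarith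
    refine le_trans ?_ h11
    norm_num
  apply hw ⟨by linarith, by linarith [h4.trans' h5]⟩ ⟨by linarith, by linarith⟩
  linarith [h4.trans' h5]

end Pool.Agent.Helper19.QD
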