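import Pool.Agent.Helper19.EQ.Fin
import Pool.Agent.Helper19.EQ.QPar2

/-! # Project QD: the theorem with the gauge `(logloglog N)^3 / loglog N` -/

set_option autoImplicit false

namespace Pool.Agent.Helper19.QD

open MeasureTheory Set Filter Topology
open Pool.Agent.Helper95.EW (Ac Dl Nr)
open Pool.Agent.Helper71.MR (gt)
open Pool.Agent.Helper63.EW (S edge_le)
open Pool.Agent.Helper63.EQ (nu Adm)
open Pool.Agent.Helper95.EQ (nu_ge)
open Pool.Agent.Helper95.QD (Dr_up fin1b)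
open Pool.Agent.Helper99.MS (ff mr GB CE cC2 CE_nonneg pL pY basic lm)

variable {w : ℝ → ℝ} {Cw B : ℝ}

/-- `loglog N` is large -/
theorem ll_large (M : ℝ) : ∃ X : ℕ, ∀ N : ℕ, X ≤ N → M ≤ Real.log (Real.log N) := by
  have h1 : Tendsto (fun N : ℕ => Real.log (Real.log (N : ℝ))) atTop atTop :=
    Real.tendsto_log_atTop.comp (Real.tendsto_log_atTop.comp tendsto_natCast_atTop_atTop)
  exact eventually_atTop.1 (h1.eventually_ge_atTop M)

theorem gauge_cmp (h : Adm w Cw) {x : ℝ} (hx : Real.exp 93 ≤ x) :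
    0 ≤ 1 - Real.log x ^ 3 / x ∧ w (1 - Real.log x ^ 3 / x) ≤ w (1 - x ^ (-(1:ℝ))) := by
  have hx0 : 0 < x := (Real.exp_pos _).trans_le hx
  have hlx : 93 ≤ Real.log x := by
    rw [Real.le_log_iff_exp_le hx0]; exact hx
  have h9 : Real.log x ^ 3 / x ≤ 1 := by
    have h10 := gauge_mono (x := Real.exp 93) (y := x) (Real.exp_le_exp.2 (by norm_num)) hx
    rw [Real.log_exp] at h10
    refine h10.trans ?_
    rw [div_le_one (Real.exp_pos _)]
    have h11 : (2:ℝ) ^ 93 ≤ Real.exp 93 := by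
      have h12 : Real.exp 93 = Real.exp 1 ^ 93 := by rw [← Real.exp_nat_mul]; norm_num
      rw [h12]
      apply pow_le_pow_left₀ (by norm_num)
      have := Real.add_one_le_exp (1:ℝ)
      linarith
    refine le_trans ?_ h11
    norm_num
  have h12 : 0 < Real.log x ^ 3 / x := by positivity
  have h13 : x ^ (-(1:ℝ)) ≤ Real.log x ^ 3 / x := by
    rw [Real.rpow_neg_one, ← one_div]
    apply div_le_div_of_nonneg_right _ hx0.le
    exact one_le_pow₀ (by linarith)
  have h14 : 0 < x ^ (-(1:ℝ)) := Real.rpow_pos_of_pos hx0 _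
  refine ⟨by linarith, h.hw ⟨by linarith, by linarith⟩ ⟨by linarith, by linarith⟩ (by linarith)⟩

/-- **the theorem** -/
theorem quant3 (h : Adm w Cw) : ∃ c : ℝ, 0 < c ∧ ∀ X : ℕ, ∃ N : ℕ, X ≤ N ∧
    c * √(N : ℝ) * w (1 - Real.log (Real.log (Real.log N)) ^ 3 / Real.log (Real.log N)) < |S mr w N| := by
  obtain ⟨C, hC1, hup⟩ := Dr_up h
  have hC0 : 0 < C := by linarith
  refine ⟨1 / (256 * C), by positivity, ?_⟩
  by_contra hcon
  push Not at hcon
  obtain ⟨X₀, hX₀⟩ := hcon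
  set c : ℝ := 1 / (256 * C) with hc
  have hc0 : 0 < c := by positivity
  obtain ⟨X₁, hX₁⟩ := ll_large (Real.exp 93)
  have hcmp : ∀ N : ℕ, X₁ ≤ N → 0 ≤ 1 - Real.log (Real.log (Real.log N)) ^ 3 / Real.log (Real.log N) ∧
      w (1 - Real.log (Real.log (Real.log N)) ^ 3 / Real.log (Real.log N)) ≤
        w (1 - Real.log (Real.log N) ^ (-(1:ℝ))) := fun N hN => gauge_cmp h (hX₁ N hN)
  obtain ⟨B, hB⟩ := fin1b h one_pos le_rfl c (max X₀ X₁) (fun N hN => by
    have h1 := hX₀ N ((le_max_left _ _).trans hN)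
    have h2 := (hcmp N ((le_max_right _ _).trans hN)).2
    have h3 : c * √(N : ℝ) * w (1 - Real.log (Real.log (Real.log N)) ^ 3 / Real.log (Real.log N)) ≤
        c * √(N : ℝ) * w (1 - Real.log (Real.log N) ^ (-(1:ℝ))) := mul_le_mul_of_nonneg_left h2 (by positivity)
    calc |S mr w N| ≤ _ := h1.trans h3
      _ = _ := by ring)
  have hB0 := hB.nonneg
  have hCE := CE_nonneg
  obtain ⟨A, hA1, hgood⟩ := good h (C₁ := 7) (by norm_num)
  obtain ⟨K₀, hK₀, hsm⟩ := small_sums mr w (max X₀ X₁)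
  have hpi := Real.pi_pos
  have hε : (0:ℝ) < 1 / 400 := by norm_num
  have E1 := pl1 B (80 * Real.pi * A) hε
  have E2 := ql2 ((1 / 128 + 40 * (4 + 16 * B + 228 * B * CE) * A) * 32) hε
  have E3 := ql3 hB0 (K := 2 * (40 * A) * 352) (by positivity) hε
  have E4 := w_large h (400 * (1 + 2 * Real.pi * C * (K₀ + 1)))
  have E5 := ql5 (K := 8 * Real.pi * C * B) (by positivity) hε
  have E6 := ql6 hB0 (K := 80 * A) (by positivity) hε
  have E7 := ql7 hB0 (K := 40 * A * (2 * |Cw|)) (by positivity)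
  have E8 := ql8
  have E9 := ql9 h.hw
  have E10 := nu_large h
  have E11 := w_pow h
  obtain ⟨m₀, hm₀⟩ := eventually_atTop.1 (E1.and (E2.and (E3.and (E4.and (E5.and (E6.and (E7.and (E8.and (E9.and
    (E10.and (E11.and basic)))))))))))
  obtain ⟨j₀, hj₀⟩ := exists_nat_ge m₀
  obtain ⟨j, hj, hW⟩ := hgood (j₀ + 5)
  have hj1 : 5 ≤ j := by omega
  obtain ⟨i, rfl⟩ : ∃ i, j = i + 1 := ⟨j - 1, by omega⟩
  set k : ℕ := 4 ^ i with hk
  have hk250 : 250 ≤ k := by
    calc 250 ≤ 4 ^ 4 := by norm_num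
      _ ≤ 4 ^ i := Nat.pow_le_pow_right (by norm_num) (by omega)
  set m : ℝ := ((4 * k : ℕ) : ℝ) with hm
  have hm4 : m = (2 ^ (i + 1)) ^ 2 := by
    rw [hm, hk]
    push_cast
    rw [← pow_mul, mul_comm (i + 1) 2, pow_mul]
    norm_num
    ring
  have hsm' : √m = 2 ^ (i + 1) := by
    rw [hm4]
    exact Real.sqrt_sq (by positivity)
  have hδ : ((1:ℝ) / 2) ^ (i + 1) = 1 / √m := by
    rw [hsm', div_pow, one_pow]
  have hmm₀ : m₀ ≤ m := by
    refine hj₀.trans ?_
    rw [hm]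
    have h1 : i < 4 ^ i := Nat.lt_pow_self (by norm_num)
    have h2 : j₀ ≤ 4 * k := by rw [hk]; omega
    exact_mod_cast h2
  obtain ⟨f1, f2, f3, f4, f5, f6, f7, f8, f9, f10, f11, fb⟩ := hm₀ m hmm₀
  have hm1000 : (1000:ℝ) ≤ m := by
    rw [hm]
    have : 1000 ≤ 4 * k := by omega
    exact_mod_cast this
  have hm0 : 0 < m := by linarith
  have hs0 : 0 < √m := Real.sqrt_pos.2 hm0
  rw [hδ] at hW
  set ω : ℝ := w (1 - 7 * (1 / √m)) with hω
  obtain ⟨_, b2, _, _, _, b6⟩ := fb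
  have hLa : 1 ≤ pL m := by
    have := pL_ge b2
    linarith
  have hYb : 1 ≤ pY m := by
    have := pY_ge b2
    linarith
  have hω1 : 1 ≤ ω := by
    have : 0 ≤ 2 * Real.pi * C * (K₀ + 1) := by positivity
    linarith
  refine core h hB hC1 (fun m hm δ hδ0 hδ1 V G => hup B hB m hm δ hδ0 hδ1 V G) hk250 (m := m) (δ := 1 / √m)
    (L := pL m) (Y := pY m) (ω := ω) (A := A) (K₀ := K₀) (c := c) hm rfl hLa hYb hω1 hA1 hK₀ hc0 hW f10 ?_ f8 ?_
    f1 ?_ ?_ f4 ?_ ?_ ?_
  · intro N hN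
    have hw0 : 0 ≤ c * ω * √(N : ℝ) := by positivity
    rcases lt_or_ge N (max X₀ X₁) with h1 | h1
    · have := hsm N h1
      linarith
    · have h2 := hX₀ N ((le_max_left _ _).trans h1)
      have h3 := hX₁ N ((le_max_right _ _).trans h1)
      have h4 := f9.2.2 N hN h3
      have h5 : c * √(N : ℝ) * w (1 - Real.log (Real.log (Real.log N)) ^ 3 / Real.log (Real.log N)) ≤
          c * √(N : ℝ) * ω :=
        mul_le_mul_of_nonneg_left h4 (by positivity)
      have h6 : 0 ≤ K₀ * √(N : ℝ) := by positivity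
      linarith
  · intro R hR0 hR
    apply f7 R hR0
    refine hR.trans ?_
    have h1 : 40 * A * ω ≤ 40 * A * (2 * |Cw| * √m) := mul_le_mul_of_nonneg_left f11 (by positivity)
    linarith
  · have e : 32 / (pL m * (1 / √m)) = 32 * (√m / pL m) := by
      have : pL m ≠ 0 := by positivity
      field_simp
    rw [e, ← mul_assoc]
    exact f2
  · have e : 2 * cC2 B m * (40 * A) * (256 / pL m + 96 / pL m) = 2 * (40 * A) * 352 * (cC2 B m / pL m) := by
      ring
    rw [e]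
    exact f3
  · have e : 2 * Real.pi * (C * B * (pY m + 3) * Real.exp (-(m / 16))) * (4 * m) =
        8 * Real.pi * C * B * (m * ((pY m + 3) * Real.exp (-(m / 16)))) := by ring
    rw [e]
    exact f5
  · have e : 2 * cC2 B m * (40 * A) * (pY m + 3) * (96 / (pL m * √((Real.exp (pY m / 2) - 1) / 2))) =
        80 * A * (cC2 B m * (pY m + 3) * (96 / (pL m * √((Real.exp (pY m / 2) - 1) / 2)))) := by ring
    rw [e]
    exact f6
  · rw [hc]
    apply le_of_eq
    field_simp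

end Pool.Agent.Helper19.QD
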