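import Pool.Agent.Helper99.MS.Param

/-!
# Parameters `L = m ^ a`, `Y = m ^ b` with `0 < a < b < 1`
-/

namespace Pool.Agent.Helper19.EQ

open Finset MeasureTheory Set Filter Topology Pool.Agent.Helper99.MS

/-- powers of `m` tend to infinity, with a constant -/
theorem pw_ge {a : ℝ} (ha : 0 < a) (C : ℝ) : ∀ᶠ m : ℝ in atTop, C ≤ m ^ a :=
  (tendsto_rpow_atTop ha).eventually_ge_atTop C

/-- `C * m ^ a ≤ m ^ b` -/
theorem pw_small {a b : ℝ} (hab : a < b) (C : ℝ) : ∀ᶠ m : ℝ in atTop, C * m ^ a ≤ m ^ b := by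
  filter_upwards [pw_ge (show 0 < b - a by linarith) C, eventually_gt_atTop (0:ℝ)] with m h hm
  have h1 : 0 ≤ m ^ a := Real.rpow_nonneg hm.le _
  calc C * m ^ a ≤ m ^ (b - a) * m ^ a := mul_le_mul_of_nonneg_right h h1
    _ = m ^ b := by rw [← Real.rpow_add hm]; congr 1; ring

/-- `C * m ^ a * (log m) ^ 2 ≤ m ^ b` -/
theorem pw_log {a b : ℝ} (hab : a < b) (C : ℝ) :
    ∀ᶠ m : ℝ in atTop, C * m ^ a * Real.log m ^ 2 ≤ m ^ b := by
  have hc : 0 < (b - a) / 4 := by linarith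
  have h1 := (isLittleO_log_rpow_atTop hc).def (show (0:ℝ) < 1 by norm_num)
  filter_upwards [h1, pw_small (show a + (b - a) / 2 < b by linarith) (max C 0),
    eventually_ge_atTop (1:ℝ)] with m h h2 hm
  have hm0 : (0:ℝ) < m := by linarith
  have hl := Real.log_nonneg hm
  rw [Real.norm_of_nonneg hl, Real.norm_of_nonneg (Real.rpow_nonneg hm0.le _), one_mul] at h
  have h3 : Real.log m ^ 2 ≤ m ^ ((b - a) / 2) := by
    calc Real.log m ^ 2 ≤ (m ^ ((b - a) / 4)) ^ 2 := pow_le_pow_left₀ hl h 2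
      _ = m ^ ((b - a) / 2) := by
          rw [← Real.rpow_natCast, ← Real.rpow_mul hm0.le]
          congr 1
          push_cast
          ring
  have h4 : 0 ≤ m ^ a := Real.rpow_nonneg hm0.le _
  calc C * m ^ a * Real.log m ^ 2 ≤ (max C 0) * m ^ a * Real.log m ^ 2 := by
        gcongr
        exact le_max_left _ _
    _ ≤ (max C 0) * m ^ a * m ^ ((b - a) / 2) := by gcongr
    _ = (max C 0) * m ^ (a + (b - a) / 2) := by rw [Real.rpow_add hm0]; ring
    _ ≤ _ := h2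

/-- every power of `m` is at most `exp (c * m ^ b)` -/
theorem pw_exp {b : ℝ} (hb : 0 < b) {c : ℝ} (hc : 0 < c) (p : ℝ) :
    ∀ᶠ m : ℝ in atTop, m ^ p ≤ Real.exp (c * m ^ b) := by
  have h1 := pw_log hb (|p| / c)
  filter_upwards [h1, eventually_ge_atTop (1:ℝ), eventually_ge_atTop (Real.exp 1)] with m h hm hme
  have hm0 : (0:ℝ) < m := by linarith
  have hl : 1 ≤ Real.log m := by
    rw [Real.le_log_iff_exp_le hm0]; exact hme
  rw [Real.rpow_zero, mul_one] at h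
  rw [Real.rpow_def_of_pos hm0]
  apply Real.exp_le_exp.2
  have h2 : |p| * Real.log m ^ 2 ≤ c * m ^ b := by
    have h3 := mul_le_mul_of_nonneg_left h hc.le
    calc |p| * Real.log m ^ 2 = c * (|p| / c * Real.log m ^ 2) := by field_simp
      _ ≤ _ := h3
  calc Real.log m * p ≤ Real.log m * |p| := mul_le_mul_of_nonneg_left (le_abs_self p) (by linarith)
    _ ≤ |p| * Real.log m ^ 2 := by
        have h5 : Real.log m ≤ Real.log m ^ 2 := by nlinarith
        calc Real.log m * |p| = |p| * Real.log m := by ring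
          _ ≤ _ := mul_le_mul_of_nonneg_left h5 (abs_nonneg p)
    _ ≤ _ := h2

/-- `C * m ^ p * exp (-(c * m ^ b)) ≤ ε` -/
theorem pw_expneg {b : ℝ} (hb : 0 < b) {c : ℝ} (hc : 0 < c) (C p : ℝ) {ε : ℝ} (hε : 0 < ε) :
    ∀ᶠ m : ℝ in atTop, C * m ^ p * Real.exp (-(c * m ^ b)) ≤ ε := by
  filter_upwards [pw_exp hb hc (p + 1), eventually_ge_atTop (max 1 (|C| / ε))] with m h hm
  have hm1 : (1:ℝ) ≤ m := (le_max_left _ _).trans hm
  have hm2 : |C| / ε ≤ m := (le_max_right _ _).trans hm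
  have hm0 : (0:ℝ) < m := by linarith
  have hp : 0 ≤ m ^ p := Real.rpow_nonneg hm0.le _
  have he := Real.exp_pos (-(c * m ^ b))
  have h1 : |C| ≤ ε * m := by
    rw [div_le_iff₀ hε] at hm2
    linarith
  calc C * m ^ p * Real.exp (-(c * m ^ b)) ≤ (ε * m) * m ^ p * Real.exp (-(c * m ^ b)) := by
        apply mul_le_mul_of_nonneg_right _ he.le
        apply mul_le_mul_of_nonneg_right _ hp
        exact (le_abs_self C).trans h1
    _ = ε * (m ^ (p + 1) * Real.exp (-(c * m ^ b))) := by rw [Real.rpow_add hm0, Real.rpow_one]; ring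
    _ ≤ ε * (Real.exp (c * m ^ b) * Real.exp (-(c * m ^ b))) := by gcongr
    _ = ε := by rw [← Real.exp_add]; simp

/-- the pigeonhole condition for a base of polynomial size -/
theorem pig {a b : ℝ} (ha : 0 < a) (hab : a < b) (p : ℝ) :
    ∀ᶠ m : ℝ in atTop, ∀ s : ℝ, 0 ≤ s → s ≤ m ^ p →
      s ^ (2 * (ZL (m ^ a)).card) < (⌊Real.exp (m ^ b / 2)⌋₊ : ℝ) + 1 := by
  obtain ⟨L₀, hL₀, hcard⟩ := ZL_card
  filter_upwards [pw_ge ha L₀, pw_log hab (4 * |p| * |a|), eventually_ge_atTop (1:ℝ)] with m h1 h2 hm s hs0 hs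
  have hm0 : (0:ℝ) < m := by linarith
  have hl : 0 ≤ Real.log m := Real.log_nonneg hm
  have hc := hcard (m ^ a) h1
  rw [Real.log_rpow hm0] at hc
  set N := (ZL (m ^ a)).card with hN
  have hma : 0 ≤ m ^ a := Real.rpow_nonneg hm0.le _
  have h4 : s ^ (2 * N) ≤ (m ^ p) ^ (2 * N) := pow_le_pow_left₀ hs0 hs _
  have h5 : (m ^ p) ^ (2 * N) = Real.exp (2 * N * (p * Real.log m)) := by
    rw [Real.rpow_def_of_pos hm0, ← Real.exp_nat_mul]
    congr 1
    push_cast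
    ring
  have h6 : 2 * N * (p * Real.log m) ≤ m ^ b / 2 := by
    have h7 : (N : ℝ) ≤ m ^ a * (|a| * Real.log m) := by
      refine hc.trans ?_
      gcongr
      exact le_abs_self a
    calc 2 * N * (p * Real.log m) ≤ 2 * N * (|p| * Real.log m) := by
          gcongr
          exact le_abs_self p
      _ ≤ 2 * (m ^ a * (|a| * Real.log m)) * (|p| * Real.log m) := by gcongr
      _ = (4 * |p| * |a| * m ^ a * Real.log m ^ 2) / 2 := by ring
      _ ≤ m ^ b / 2 := by linarith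
  calc _ ≤ (m ^ p) ^ (2 * N) := h4
    _ = Real.exp (2 * N * (p * Real.log m)) := h5
    _ ≤ Real.exp (m ^ b / 2) := Real.exp_le_exp.2 h6
    _ < _ := Nat.lt_floor_add_one _

/-- `J * τ ≤ exp Y` for `J = ⌊exp (Y / 2)⌋`, `τ = exp (Y / 2)` -/
theorem JY (Y : ℝ) : (⌊Real.exp (Y / 2)⌋₊ : ℝ) * Real.exp (Y / 2) ≤ Real.exp Y := by
  have h1 : (⌊Real.exp (Y / 2)⌋₊ : ℝ) ≤ Real.exp (Y / 2) := Nat.floor_le (Real.exp_pos _).le
  calc (⌊Real.exp (Y / 2)⌋₊ : ℝ) * Real.exp (Y / 2) ≤ Real.exp (Y / 2) * Real.exp (Y / 2) :=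
        mul_le_mul_of_nonneg_right h1 (Real.exp_pos _).le
    _ = Real.exp Y := by rw [← Real.exp_add]; congr 1; ring

/-- `loglog x ≤ Y + 1` for `1 ≤ x ≤ exp (2 * exp Y)` -/
theorem llog_le {Y x : ℝ} (hY : 0 ≤ Y) (h1x : 1 ≤ x) (hx : x ≤ Real.exp (2 * Real.exp Y)) :
    Real.log (Real.log x) ≤ Y + 1 := by
  rcases h1x.eq_or_lt with h | h
  · rw [← h]
    simp
    linarith
  · have h0 : 0 < x := by linarith
    have h1 : 0 < Real.log x := Real.log_pos h
    rw [Real.log_le_iff_le_exp h1]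
    have h2 : Real.log x ≤ 2 * Real.exp Y := by
      rw [Real.log_le_iff_le_exp h0]; exact hx
    have h3 : (2:ℝ) ≤ Real.exp 1 := by
      have := Real.add_one_le_exp (1:ℝ)
      linarith
    rw [Real.exp_add]
    nlinarith [Real.exp_pos Y]

theorem llog_le_nat {Y : ℝ} (hY : 0 ≤ Y) (N : ℕ) (hx : (N : ℝ) ≤ Real.exp (2 * Real.exp Y)) :
    Real.log (Real.log N) ≤ Y + 1 := by
  rcases Nat.eq_zero_or_pos N with h | h
  · rw [h]
    simp
    linarith
  · exact llog_le hY (by exact_mod_cast h) hx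

/-- the gauge: `w (1 - (loglog N) ^ (-1/2)) ≤ w (1 - C * m ^ (-1/2))` for `N ≤ exp (2 * exp (m ^ b))`, `b < 1` -/
theorem gauge {w : ℝ → ℝ} (hw : MonotoneOn w (Ico 0 1)) {b : ℝ} (hb : 0 < b) (hb1 : b < 1) {C : ℝ} (hC : 0 < C) :
    ∀ᶠ m : ℝ in atTop, 0 ≤ 1 - C / √m ∧ 1 - C / √m < 1 ∧
      ∀ N : ℕ, (N : ℝ) ≤ Real.exp (2 * Real.exp (m ^ b)) → 1 ≤ Real.log (Real.log N) →
        w (1 - 1 / √(Real.log (Real.log N))) ≤ w (1 - C / √m) := by
  filter_upwards [pw_small hb1 (2 * C ^ 2), pw_ge hb 1, eventually_ge_atTop (1:ℝ),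
    eventually_ge_atTop (C ^ 2)] with m h1 h2 hm hmC
  rw [Real.rpow_one] at h1
  have hm0 : 0 < m := by linarith
  have hs0 : 0 < √m := Real.sqrt_pos.2 hm0
  have hsC : C ≤ √m := Real.le_sqrt_of_sq_le hmC
  have hq : C / √m ≤ 1 := by rw [div_le_one hs0]; exact hsC
  have hq0 : 0 < C / √m := by positivity
  refine ⟨by linarith, by linarith, ?_⟩
  intro N hN hl
  have h3 := llog_le_nat (show 0 ≤ m ^ b by linarith) N hN
  have h4 : Real.log (Real.log N) ≤ m / C ^ 2 := by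
    rw [le_div_iff₀ (by positivity)]
    have : 0 < C ^ 2 := by positivity
    nlinarith
  have hl0 : 0 < √(Real.log (Real.log N)) := Real.sqrt_pos.2 (by linarith)
  have hl1 : 1 ≤ √(Real.log (Real.log N)) := Real.one_le_sqrt.2 hl
  have h5 : √(Real.log (Real.log N)) ≤ √m / C := by
    calc √(Real.log (Real.log N)) ≤ √(m / C ^ 2) := Real.sqrt_le_sqrt h4
      _ = √m / C := by rw [Real.sqrt_div hm0.le, Real.sqrt_sq hC.le]
  have h6 : C / √m ≤ 1 / √(Real.log (Real.log N)) := by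
    rw [div_le_div_iff₀ hs0 hl0]
    rw [le_div_iff₀ hC] at h5
    linarith
  have h7 : 1 / √(Real.log (Real.log N)) ≤ 1 := by
    rw [div_le_one hl0]; exact hl1
  have h8 : 0 < 1 / √(Real.log (Real.log N)) := by positivity
  apply hw ⟨by linarith, by linarith⟩ ⟨by linarith, by linarith⟩
  linarith

end Pool.Agent.Helper19.EQ
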