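import Pool.Agent.Helper19.EQ.Par

/-!
# The parameters `L = m ^ (8/9)`, `Y = m ^ (9/10)`
-/

namespace Pool.Agent.Helper19.EQ

open Finset MeasureTheory Set Filter Topology Pool.Agent.Helper99.MS

/-- size of `cC2` -/
theorem cC2_small {B : ℝ} (hB : 0 ≤ B) : ∀ᶠ m : ℝ in atTop, cC2 B m ≤ m ^ (7/18 - 1/200 : ℝ) := by
  filter_upwards [pw_small (show (3/8 : ℝ) < 7/18 - 1/200 by norm_num) (B * (16 + 44 * CI)),
    eventually_ge_atTop (1:ℝ)] with m h hm
  exact (cC2_le hB hm).trans h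

theorem par {B K : ℝ} (hB : 0 ≤ B) (hK : 0 ≤ K) : ∀ᶠ m : ℝ in atTop,
    (1 + 2 * ((6 * cC2 B m * K) * (m ^ (9 / 10 : ℝ) + 3) * (16 * m ^ (8 / 9 : ℝ) * CS)) * √m) ^ (2 * (ZL (m ^ (8 / 9 : ℝ))).card) <
      (⌊Real.exp (m ^ (9 / 10 : ℝ) / 2)⌋₊ : ℝ) + 1 := by
  have hCS := CS_nonneg
  filter_upwards [pig (show (0:ℝ) < 8/9 by norm_num) (show (8/9 : ℝ) < 9/10 by norm_num) 4,
    cC2_small hB, eventually_ge_atTop (1:ℝ),
    eventually_ge_atTop (1 + 2 * (6 * K * 4 * (16 * CS)))] with m h1 h2 hm hm2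
  have hm0 : (0:ℝ) < m := by linarith
  have hc := cC2_nonneg hB hm0.le
  have h3 : cC2 B m ≤ √m := by
    refine h2.trans ?_
    rw [Real.sqrt_eq_rpow]
    exact Real.rpow_le_rpow_of_exponent_le hm (by norm_num)
  have h4 : m ^ (9/10 : ℝ) ≤ m := by
    calc m ^ (9/10 : ℝ) ≤ m ^ (1:ℝ) := Real.rpow_le_rpow_of_exponent_le hm (by norm_num)
      _ = m := Real.rpow_one m
  have h5 : m ^ (8/9 : ℝ) ≤ m := by
    calc m ^ (8/9 : ℝ) ≤ m ^ (1:ℝ) := Real.rpow_le_rpow_of_exponent_le hm (by norm_num)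
      _ = m := Real.rpow_one m
  have h6 : 0 ≤ m ^ (9/10 : ℝ) := Real.rpow_nonneg hm0.le _
  have h7 : 0 ≤ m ^ (8/9 : ℝ) := Real.rpow_nonneg hm0.le _
  have hs : √m * √m = m := Real.mul_self_sqrt hm0.le
  have hs0 : 0 ≤ √m := Real.sqrt_nonneg m
  refine h1 _ (by positivity) ?_
  have h8 : 2 * ((6 * cC2 B m * K) * (m ^ (9 / 10 : ℝ) + 3) * (16 * m ^ (8 / 9 : ℝ) * CS)) * √m ≤
      2 * ((6 * √m * K) * (4 * m) * (16 * m * CS)) * √m := by
    gcongr
    linarith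
  have h9 : 2 * ((6 * √m * K) * (4 * m) * (16 * m * CS)) * √m = 2 * (6 * K * 4 * (16 * CS)) * m ^ 3 := by
    calc 2 * ((6 * √m * K) * (4 * m) * (16 * m * CS)) * √m
        = 2 * (6 * K * 4 * (16 * CS)) * (√m * √m) * m ^ 2 := by ring
      _ = _ := by rw [hs]; ring
  rw [h9] at h8
  have h10 : (m : ℝ) ^ (4 : ℝ) = m ^ 3 * m := by
    rw [show (4:ℝ) = ((4:ℕ) : ℝ) by norm_num, Real.rpow_natCast]
    ring
  rw [h10]
  have h11 : 1 ≤ m ^ 3 := one_le_pow₀ hm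
  calc 1 + 2 * ((6 * cC2 B m * K) * (m ^ (9 / 10 : ℝ) + 3) * (16 * m ^ (8 / 9 : ℝ) * CS)) * √m
      ≤ m ^ 3 + 2 * (6 * K * 4 * (16 * CS)) * m ^ 3 := by linarith
    _ = m ^ 3 * (1 + 2 * (6 * K * 4 * (16 * CS))) := by ring
    _ ≤ m ^ 3 * m := mul_le_mul_of_nonneg_left hm2 (by linarith)

/-- limits from eventual smallness -/
theorem lim_of {f : ℝ → ℝ} (h0 : ∀ᶠ m : ℝ in atTop, 0 ≤ f m) {p : ℝ} (hp : p < 0) (C : ℝ)
    (h : ∀ᶠ m : ℝ in atTop, f m ≤ C * m ^ p) : Tendsto f atTop (𝓝 0) := by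
  have h1 : Tendsto (fun m : ℝ => C * m ^ p) atTop (𝓝 (C * 0)) := (t_neg hp).const_mul _
  rw [mul_zero] at h1
  exact squeeze_zero' h0 h h1

theorem expneg_small {c : ℝ} (hc : 0 < c) (p : ℝ) : ∀ᶠ m : ℝ in atTop, Real.exp (-(m / c)) ≤ m ^ (-p) := by
  filter_upwards [pw_exp (show (0:ℝ) < 1 by norm_num) (show 0 < 1 / c by positivity) p,
    eventually_gt_atTop (0:ℝ)] with m h hm
  rw [Real.rpow_one] at h
  rw [Real.exp_neg, Real.rpow_neg hm.le]
  have h1 : 1 / c * m = m / c := by ring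
  rw [h1] at h
  exact inv_anti₀ (Real.rpow_pos_of_pos hm p) h

/-- the error terms, relative to `1/√m` -/
theorem par2 {B K : ℝ} (hB : 0 ≤ B) (hK : 0 ≤ K) :
    Tendsto (fun m : ℝ => √m * (K * (4 * Real.exp (-(m / 32)) + 64 * B * Real.exp (-((m - 4) / 32)))) ) atTop (𝓝 0) ∧
    Tendsto (fun m : ℝ => √m * (6 * cC2 B m * K * (32 / (m ^ (8 / 9 : ℝ) * (1 / 20)) + 96 / m ^ (8 / 9 : ℝ)))) atTop (𝓝 0) ∧
    Tendsto (fun m : ℝ => √m * (6 * cC2 B m * K * (m ^ (9 / 10 : ℝ) + 3) * (96 / (m ^ (8 / 9 : ℝ) * √(Real.exp (m ^ (9 / 10 : ℝ) / 2) / 2))))) atTop (𝓝 0) ∧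
    Tendsto (fun m : ℝ => (m : ℝ) * √m * (K * B * (m ^ (9 / 10 : ℝ) + 3) * Real.exp (-(m / 16)))) atTop (𝓝 0) ∧
    Tendsto (fun m : ℝ => 16 / (m ^ (8 / 9 : ℝ) * (1 / √m))) atTop (𝓝 0) := by
  refine ⟨?_, ?_, ?_, ?_, ?_⟩
  · apply lim_of (p := -(1/2)) _ (by norm_num) (K * (4 + 64 * B * Real.exp (1/8)))
    · filter_upwards [expneg_small (show (0:ℝ) < 32 by norm_num) 1, eventually_gt_atTop (0:ℝ)] with m h hm
      have h1 : Real.exp (-((m - 4) / 32)) = Real.exp (1/8) * Real.exp (-(m / 32)) := by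
        rw [← Real.exp_add]; congr 1; ring
      rw [h1]
      have h2 : √m * m ^ (-1 : ℝ) = m ^ (-(1/2) : ℝ) := by
        rw [Real.sqrt_eq_rpow, ← Real.rpow_add hm]; norm_num
      have he := Real.exp_pos (-(m / 32))
      have h8 := Real.exp_pos (1/8)
      calc √m * (K * (4 * Real.exp (-(m / 32)) + 64 * B * (Real.exp (1/8) * Real.exp (-(m / 32)))))
          = (K * (4 + 64 * B * Real.exp (1/8))) * (√m * Real.exp (-(m / 32))) := by ring
        _ ≤ (K * (4 + 64 * B * Real.exp (1/8))) * (√m * m ^ (-1 : ℝ)) := by gcongr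
        _ = _ := by rw [h2]
    · filter_upwards [eventually_gt_atTop (0:ℝ)] with m hm
      positivity
  · apply lim_of (p := -(1/200)) _ (by norm_num) (6 * K * 736)
    · filter_upwards [cC2_small hB, eventually_gt_atTop (0:ℝ)] with m h hm
      have hc := cC2_nonneg hB hm.le
      have h7 : 0 < m ^ (8/9 : ℝ) := Real.rpow_pos_of_pos hm _
      have h1 : 32 / (m ^ (8 / 9 : ℝ) * (1 / 20)) + 96 / m ^ (8 / 9 : ℝ) = 736 / m ^ (8/9 : ℝ) := by
        field_simp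
        norm_num
      rw [h1]
      have h2 : √m * (m ^ (7/18 - 1/200 : ℝ) / m ^ (8/9 : ℝ)) = m ^ (-(1/200) : ℝ) := by
        rw [Real.sqrt_eq_rpow, ← Real.rpow_sub hm, ← Real.rpow_add hm]; norm_num
      calc √m * (6 * cC2 B m * K * (736 / m ^ (8/9 : ℝ)))
          = (6 * K * 736) * (√m * (cC2 B m / m ^ (8/9 : ℝ))) := by ring
        _ ≤ (6 * K * 736) * (√m * (m ^ (7/18 - 1/200 : ℝ) / m ^ (8/9 : ℝ))) := by gcongr
        _ = _ := by rw [h2]
    · filter_upwards [eventually_gt_atTop (0:ℝ)] with m hm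
      have hc := cC2_nonneg hB hm.le
      positivity
  · apply lim_of (p := -(1/2)) _ (by norm_num) (6 * K * 4 * 96 * 2)
    · filter_upwards [cC2_small hB, eventually_ge_atTop (1:ℝ),
        pw_exp (show (0:ℝ) < 9/10 by norm_num) (show (0:ℝ) < 1/2 by norm_num) 6] with m h hm he
      have hm0 : (0:ℝ) < m := by linarith
      have hc := cC2_nonneg hB hm0.le
      have h3 : cC2 B m ≤ √m := by
        refine h.trans ?_
        rw [Real.sqrt_eq_rpow]
        exact Real.rpow_le_rpow_of_exponent_le hm (by norm_num)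
      have h4 : m ^ (9/10 : ℝ) ≤ m := by
        calc m ^ (9/10 : ℝ) ≤ m ^ (1:ℝ) := Real.rpow_le_rpow_of_exponent_le hm (by norm_num)
          _ = m := Real.rpow_one m
      have h6 : 0 ≤ m ^ (9/10 : ℝ) := Real.rpow_nonneg hm0.le _
      have h7 : 1 ≤ m ^ (8/9 : ℝ) := Real.one_le_rpow hm (by norm_num)
      have h8 : m ^ (6:ℝ) = m ^ 6 := by
        rw [show (6:ℝ) = ((6:ℕ) : ℝ) by norm_num, Real.rpow_natCast]
      rw [h8] at he
      have h9 : m ^ 3 / 2 ≤ √(Real.exp (m ^ (9 / 10 : ℝ) / 2) / 2) := by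
        apply Real.le_sqrt_of_sq_le
        have h10 : 1 / 2 * m ^ (9/10 : ℝ) = m ^ (9/10 : ℝ) / 2 := by ring
        rw [h10] at he
        have h11 : 0 ≤ m ^ 6 := by positivity
        calc (m ^ 3 / 2) ^ 2 = m ^ 6 / 4 := by ring
          _ ≤ m ^ 6 / 2 := by linarith
          _ ≤ _ := by linarith
      have h12 : 96 / (m ^ (8 / 9 : ℝ) * √(Real.exp (m ^ (9 / 10 : ℝ) / 2) / 2)) ≤ 96 * 2 / m ^ 3 := by
        have h13 : m ^ 3 / 2 ≤ m ^ (8 / 9 : ℝ) * √(Real.exp (m ^ (9 / 10 : ℝ) / 2) / 2) := by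
          have : 0 ≤ √(Real.exp (m ^ (9 / 10 : ℝ) / 2) / 2) := Real.sqrt_nonneg _
          nlinarith
        calc 96 / (m ^ (8 / 9 : ℝ) * √(Real.exp (m ^ (9 / 10 : ℝ) / 2) / 2)) ≤ 96 / (m ^ 3 / 2) :=
              div_le_div_of_nonneg_left (by norm_num) (by positivity) h13
          _ = _ := by field_simp
      have hs : √m * √m = m := Real.mul_self_sqrt hm0.le
      have hs0 : 0 ≤ √m := Real.sqrt_nonneg m
      have h14 : m ^ (-(1/2) : ℝ) ≥ m ^ (-1 : ℝ) := Real.rpow_le_rpow_of_exponent_le hm (by norm_num)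
      calc √m * (6 * cC2 B m * K * (m ^ (9 / 10 : ℝ) + 3) *
            (96 / (m ^ (8 / 9 : ℝ) * √(Real.exp (m ^ (9 / 10 : ℝ) / 2) / 2))))
          ≤ √m * (6 * √m * K * (4 * m) * (96 * 2 / m ^ 3)) := by
            have h15 : m ^ (9/10 : ℝ) + 3 ≤ 4 * m := by linarith
            gcongr
        _ = (6 * K * 4 * 96 * 2) * ((√m * √m) * m / m ^ 3) := by ring
        _ = (6 * K * 4 * 96 * 2) * m ^ (-1 : ℝ) := by
            rw [hs, Real.rpow_neg_one]
            field_simp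
        _ ≤ (6 * K * 4 * 96 * 2) * m ^ (-(1/2) : ℝ) := mul_le_mul_of_nonneg_left h14 (by positivity)
    · filter_upwards [eventually_gt_atTop (0:ℝ)] with m hm
      have hc := cC2_nonneg hB hm.le
      have h6 : 0 ≤ m ^ (9/10 : ℝ) := Real.rpow_nonneg hm.le _
      positivity
  · apply lim_of (p := -1) _ (by norm_num) (K * B * 4)
    · filter_upwards [expneg_small (show (0:ℝ) < 16 by norm_num) 4, eventually_ge_atTop (1:ℝ)] with m h hm
      have hm0 : (0:ℝ) < m := by linarith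
      have h4 : m ^ (9/10 : ℝ) ≤ m := by
        calc m ^ (9/10 : ℝ) ≤ m ^ (1:ℝ) := Real.rpow_le_rpow_of_exponent_le hm (by norm_num)
          _ = m := Real.rpow_one m
      have h6 : 0 ≤ m ^ (9/10 : ℝ) := Real.rpow_nonneg hm0.le _
      have hs : √m ≤ m := by
        rw [Real.sqrt_le_left hm0.le]
        nlinarith
      have h5 : m * m * (K * B * (4 * m) * m ^ (-4 : ℝ)) = (K * B * 4) * m ^ (-1 : ℝ) := by
        have : m ^ (-1 : ℝ) = m ^ 3 * m ^ (-4 : ℝ) := by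
          rw [← Real.rpow_natCast, ← Real.rpow_add hm0]; norm_num
        rw [this]; ring
      rw [← h5]
      have h15 : m ^ (9/10 : ℝ) + 3 ≤ 4 * m := by linarith
      have he := Real.exp_pos (-(m / 16))
      gcongr
    · filter_upwards [eventually_gt_atTop (0:ℝ)] with m hm
      have h6 : 0 ≤ m ^ (9/10 : ℝ) := Real.rpow_nonneg hm.le _
      positivity
  · apply lim_of (p := -(7/18)) _ (by norm_num) 16
    · filter_upwards [eventually_gt_atTop (0:ℝ)] with m hm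
      apply le_of_eq
      have hs0 : 0 < √m := Real.sqrt_pos.2 hm
      have h2 : m ^ (-(7/18) : ℝ) = √m / m ^ (8/9 : ℝ) := by
        rw [Real.sqrt_eq_rpow, ← Real.rpow_sub hm]; norm_num
      rw [h2]
      field_simp
    · filter_upwards [eventually_gt_atTop (0:ℝ)] with m hm
      positivity

end Pool.Agent.Helper19.EQ
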